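import Pool.Agent.N926.Qe.M

/-! the quadratic transformation of Legendre polynomials of even degree -/

set_option autoImplicit false
set_option linter.unusedVariables false
set_option linter.unusedSectionVars false

namespace Pool.Agent.N926.Qf

open Finset Polynomial Pool.Agent.N926.Qd Pool.Agent.N926.Qe

noncomputable section

/-- coefficients in the variable `u(1-u)` -/
def ee (M k : ℕ) : ℚ := ∏ j ∈ range k, ((2*(j:ℚ)-2*M)*(2*(j:ℚ)+2*M+1)/((j:ℚ)+1)^2)

theorem ee_succ (M k : ℕ) : ee M (k+1) * ((k:ℚ)+1)^2 = (2*(k:ℚ)-2*M)*(2*(k:ℚ)+2*M+1) * ee M k := by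
  unfold ee
  rw [prod_range_succ]
  have : ((k:ℚ)+1)^2 ≠ 0 := by positivity
  field_simp

theorem ee_zero {M k : ℕ} (h : M < k) : ee M k = 0 := by
  unfold ee
  refine prod_eq_zero (mem_range.2 h) ?_
  simp

theorem Pc_coeff (c : ℕ → ℚ) (N k : ℕ) : (Pc c N).coeff k = if k < N then c k else 0 := by
  unfold Pc
  rw [finsetSum_coeff]
  simp only [coeff_C_mul_X_pow]
  rw [sum_ite_eq]
  simp [mem_range]

theorem E_coeff (M k : ℕ) : (Pc (ee M) (M+1)).coeff k = ee M k := by
  rw [Pc_coeff]
  split_ifs with h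
  · rfl
  · rw [ee_zero (by omega)]

theorem xd_coeff (P : ℚ[X]) (k : ℕ) : (X * derivative P).coeff k = k * P.coeff k := by
  rcases k with _ | k
  · simp
  · rw [coeff_X_mul, coeff_derivative]; push_cast; ring

theorem E_ode (M : ℕ) (E : ℚ[X]) (hE : ∀ k, E.coeff k = ee M k) :
    derivative (X * derivative E) = C 4 * (X * derivative (X * derivative E)) + C 2 * (X * derivative E) - C (2*(M:ℚ)*(2*M+1)) * E := by
  ext k
  rw [coeff_derivative, xd_coeff, coeff_sub, coeff_add, coeff_C_mul, coeff_C_mul, coeff_C_mul, xd_coeff, xd_coeff, hE, hE]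
  have := ee_succ M k
  push_cast
  linear_combination this

theorem Q_ode (M : ℕ) (E : ℚ[X]) (hE : derivative (X * derivative E) = C 4 * (X * derivative (X * derivative E)) + C 2 * (X * derivative E) - C (2*(M:ℚ)*(2*M+1)) * E) :
    derivative (X * derivative (E.comp (X - X^2)) - X * (X * derivative (E.comp (X - X^2)))) = -(C (2*(M:ℚ)*(2*M+1)) * E.comp (X - X^2)) := by
  have h1 : derivative (E.comp (X - X^2)) = (1 - 2*X) * (derivative E).comp (X - X^2) := by
    rw [derivative_comp]
    simp only [derivative_sub, derivative_X, derivative_X_pow]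
    simp
    exact Or.inl (map_ofNat C 2)
  have h2 : X * derivative (E.comp (X - X^2)) - X * (X * derivative (E.comp (X - X^2))) = (1 - 2*X) * (X * derivative E).comp (X - X^2) := by
    rw [h1, mul_comp, X_comp]
    ring
  have h3 : derivative ((X * derivative E).comp (X - X^2)) = (1 - 2*X) * (derivative (X * derivative E)).comp (X - X^2) := by
    rw [derivative_comp]
    simp only [derivative_sub, derivative_X, derivative_X_pow]
    simp
    exact Or.inl (map_ofNat C 2)
  have h4 := congrArg (fun P : ℚ[X] => P.comp (X - X^2)) hE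
  simp only [sub_comp, add_comp, mul_comp, C_comp, X_comp] at h4
  rw [h2, derivative_mul, h3]
  have h5 : derivative (1 - 2*X : ℚ[X]) = -2 := by
    have : (2 : ℚ[X]) = C 2 := (map_ofNat C 2).symm
    rw [this]; simp
  rw [h5, mul_comp, X_comp]
  have c4 : (C 4 : ℚ[X]) = 4 := map_ofNat C 4
  have c2 : (C 2 : ℚ[X]) = 2 := map_ofNat C 2
  rw [c4, c2] at h4
  generalize (derivative (X * derivative E)).comp (X - X^2) = W at *
  generalize (derivative E).comp (X - X^2) = V at *
  generalize E.comp (X - X^2) = U at *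
  linear_combination h4

theorem Q_rec (ν : ℚ) (Q : ℚ[X]) (h : derivative (X * derivative Q - X * (X * derivative Q)) = -(C ν * Q)) (k : ℕ) :
    ((k:ℚ)+1)^2 * Q.coeff (k+1) = (k*(k+1) - ν) * Q.coeff k := by
  have h1 : (derivative (X * derivative Q - X * (X * derivative Q))).coeff k = (-(C ν * Q)).coeff k := by rw [h]
  rw [coeff_derivative, coeff_sub, xd_coeff, coeff_X_mul, xd_coeff, coeff_neg, coeff_C_mul] at h1
  push_cast at h1
  linear_combination h1

theorem quad_poly (M : ℕ) : (Pc (ee M) (M+1)).comp (X - X^2) = Pc (leg (2*M)) (2*M+1) := by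
  have h1 := Q_rec _ _ (Q_ode M _ (E_ode M _ (E_coeff M)))
  have h0 : ((Pc (ee M) (M+1)).comp (X - X^2)).coeff 0 = 1 := by
    rw [coeff_zero_eq_eval_zero, eval_comp]
    simp only [eval_sub, eval_X, eval_pow]
    norm_num
    rw [← coeff_zero_eq_eval_zero, E_coeff]
    simp [ee]
  have h2 : ∀ k, ((Pc (ee M) (M+1)).comp (X - X^2)).coeff k = leg (2*M) k := by
    intro k
    induction k with
    | zero => rw [h0, leg_prod]; simp
    | succ k ih =>
      have h3 := h1 k
      rw [ih, leg_prod] at h3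
      rw [leg_prod, prod_range_succ]
      have hk : ((k:ℚ)+1)^2 ≠ 0 := by positivity
      refine mul_left_cancel₀ hk ?_
      rw [h3]
      push_cast
      field_simp
      ring
  ext k
  rw [h2, Pc_coeff]
  split_ifs with h
  · rfl
  · unfold leg
    rw [Nat.choose_eq_zero_of_lt (by omega)]
    simp

variable {R : Type*} [CommRing R] (A : ℚ →+* R)

theorem quad_ring (M : ℕ) (u : R) : Sg A (leg (2*M)) (2*M+1) u = Sg A (ee M) (M+1) (u*(1-u)) := by
  have h := congrArg (eval₂ A u) (quad_poly M)
  rw [eval₂_comp, eval₂_sub, eval₂_pow, eval₂_X, ev_Pc, ev_Pc] at h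
  rw [← h]
  congr 1
  ring

end

end Pool.Agent.N926.Qf
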