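import Pool.Agent.N926.Qe.C

/-! a product identity at a special value and its coefficients -/

set_option autoImplicit false
set_option linter.unusedVariables false
set_option linter.unusedSectionVars false

namespace Pool.Agent.N926.Qf

open Finset Polynomial

noncomputable section

theorem co1 (N i : ℕ) : ((1 + C 2 * X : ℚ[X])^N).coeff i = ((N.choose i : ℕ) : ℚ) * 2^i := by
  have : (1 + C 2 * X : ℚ[X])^N = ∑ m ∈ range (N+1), C (((N.choose m : ℕ) : ℚ) * 2^m) * X^m := by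
    rw [add_comm, add_pow]
    refine sum_congr rfl fun m _ => ?_
    rw [one_pow, mul_one, mul_pow, C_mul, ← C_pow]
    simp only [map_natCast]
    ring
  rw [this, finsetSum_coeff]
  simp only [coeff_C_mul_X_pow]
  by_cases hi : i ∈ range (N+1)
  · rw [sum_ite_eq]
    simp [hi]
  · rw [sum_ite_eq]
    rw [if_neg hi]
    rw [mem_range] at hi
    rw [Nat.choose_eq_zero_of_lt (by omega)]; simp

/-- coefficient of `X^(N+q)` in `((X+2)(1+2X))^N` -/
theorem gen (N q : ℕ) : 2^q * ∑ j ∈ range (N+1), ((N.choose (q+j) : ℕ) : ℚ) * ((N.choose j : ℕ) : ℚ) * 4^j =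
    ∑ k ∈ range (N+1), ((N.choose k : ℕ) : ℚ) * 2^k * (((2*k).choose (q+k) : ℕ) : ℚ) := by
  have key : (1 + C 2 * X)^N * (X + C 2)^N = (X + C 2 * (1+X)^2 : ℚ[X])^N := by
    rw [← mul_pow]
    congr 1
    have : (C 2 : ℚ[X]) = 2 := map_ofNat C 2
    rw [this]
    ring
  have h1 : ((1 + C 2 * X : ℚ[X])^N * (X + C 2)^N).coeff (q+N) = ((X + C 2 * (1+X)^2 : ℚ[X])^N).coeff (q+N) := by rw [key]
  have lhs : ((1 + C 2 * X : ℚ[X])^N * (X + C 2)^N).coeff (q+N) = 2^q * ∑ j ∈ range (N+1), ((N.choose (q+j) : ℕ) : ℚ) * ((N.choose j : ℕ) : ℚ) * 4^j := by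
    rw [coeff_mul, Finset.Nat.sum_antidiagonal_eq_sum_range_succ_mk, Nat.succ_eq_add_one, show q+N+1 = q+(N+1) by ring, sum_range_add, mul_sum]
    have z : ∑ x ∈ range q, ((1 + C 2 * X : ℚ[X])^N).coeff x * ((X + C 2 : ℚ[X])^N).coeff (q+N-x) = 0 := by
      refine sum_eq_zero fun x hx => ?_
      rw [mem_range] at hx
      rw [coeff_X_add_C_pow, Nat.choose_eq_zero_of_lt (by omega)]
      simp
    rw [z, zero_add]
    refine sum_congr rfl fun j hj => ?_
    rw [mem_range] at hj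
    rw [co1, coeff_X_add_C_pow, show q+N-(q+j) = N-j by omega, Nat.choose_symm (by omega), show N-(N-j) = j by omega]
    have : (4:ℚ)^j = 2^j * 2^j := by rw [← mul_pow]; norm_num
    rw [this, pow_add]
    ring
  have rhs : ((X + C 2 * (1+X)^2 : ℚ[X])^N).coeff (q+N) = ∑ k ∈ range (N+1), ((N.choose k : ℕ) : ℚ) * 2^k * (((2*k).choose (q+k) : ℕ) : ℚ) := by
    rw [add_comm X, add_pow, finsetSum_coeff]
    refine sum_congr rfl fun k hk => ?_
    rw [mem_range] at hk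
    have e : (C 2 * (1+X)^2 : ℚ[X])^k * X^(N-k) * ((N.choose k : ℕ) : ℚ[X]) =
        C (((N.choose k : ℕ) : ℚ) * 2^k) * ((1+X)^(2*k) * X^(N-k)) := by
      simp only [C_mul, C_pow, map_natCast, mul_pow, ← pow_mul]
      ring
    rw [e, coeff_C_mul, coeff_mul_X_pow', if_pos (by omega), show q+N - (N-k) = q+k by omega, coeff_one_add_X_pow]
  rw [lhs, rhs] at h1
  exact h1

/-- `c_j = C(M+q, j)` -/
def cM (M q j : ℕ) : ℚ := (((M+q).choose j : ℕ) : ℚ)

theorem cM_refl (M q j : ℕ) (hj : j ≤ M) : (((M+q).choose (q+j) : ℕ) : ℚ) = cM M q (M-j) := by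
  unfold cM
  congr 1
  rw [← Nat.choose_symm (show q+j ≤ M+q by omega)]
  congr 1
  omega

/-- the diagonal identity -/
theorem gen0 (N : ℕ) : ∑ j ∈ range (N+1), ((N.choose j : ℕ) : ℚ)^2 * 4^j = ∑ k ∈ range (N+1), ((N.choose k : ℕ) : ℚ) * 2^k * (((2*k).choose k : ℕ) : ℚ) := by
  have := gen N 0
  simp only [pow_zero, one_mul, zero_add] at this
  rw [← this]
  exact sum_congr rfl fun j _ => by ring

/-- the shifted identity -/
theorem genq (M q : ℕ) : 2^q * ∑ j ∈ range (M+1), cM M q (M-j) * cM M q j * 4^j =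
    ∑ i ∈ range (M+1), cM M q (M-i) * 2^(q+i) * (((2*(q+i)).choose (2*q+i) : ℕ) : ℚ) := by
  have h := gen (M+q) q
  have hr : range (M+q+1) = range (q+(M+1)) := by congr 1; ring
  have hr2 : range (M+q+1) = range ((M+1)+q) := by congr 1; ring
  have e1 : ∑ j ∈ range (M+q+1), (((M+q).choose (q+j) : ℕ) : ℚ) * (((M+q).choose j : ℕ) : ℚ) * 4^j = ∑ j ∈ range (M+1), cM M q (M-j) * cM M q j * 4^j := by
    rw [hr2, sum_range_add]
    have z : ∑ x ∈ range q, (((M+q).choose (q+(M+1+x)) : ℕ) : ℚ) * (((M+q).choose (M+1+x) : ℕ) : ℚ) * 4^(M+1+x) = 0 := by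
      refine sum_eq_zero fun x _ => ?_
      rw [Nat.choose_eq_zero_of_lt (show M+q < q+(M+1+x) by omega)]
      simp
    rw [z, add_zero]
    refine sum_congr rfl fun j hj => ?_
    rw [mem_range] at hj
    rw [cM_refl M q j (by omega)]
    rfl
  have e2 : ∑ k ∈ range (M+q+1), (((M+q).choose k : ℕ) : ℚ) * 2^k * (((2*k).choose (q+k) : ℕ) : ℚ) = ∑ i ∈ range (M+1), cM M q (M-i) * 2^(q+i) * (((2*(q+i)).choose (2*q+i) : ℕ) : ℚ) := by
    rw [hr, sum_range_add]
    have z : ∑ x ∈ range q, (((M+q).choose x : ℕ) : ℚ) * 2^x * (((2*x).choose (q+x) : ℕ) : ℚ) = 0 := by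
      refine sum_eq_zero fun x hx => ?_
      rw [mem_range] at hx
      rw [Nat.choose_eq_zero_of_lt (show 2*x < q+x by omega)]
      simp
    rw [z, zero_add]
    refine sum_congr rfl fun i hi => ?_
    rw [mem_range] at hi
    rw [cM_refl M q i (by omega), show q+(q+i) = 2*q+i by ring]
  rw [e1, e2] at h
  exact h

/-- splitting of the diagonal identity at `q` -/
theorem gen_split (M q : ℕ) (hM : M < q) : ∑ k ∈ range q, cM M q k * 2^k * (((2*k).choose k : ℕ) : ℚ) =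
    ∑ j ∈ range (M+1), cM M q j ^ 2 * 4^j + ∑ j ∈ range (q-M-1), cM M q (M+1+j) ^ 2 * 4^(M+1+j) + 4^q * ∑ j ∈ range (M+1), cM M q j ^ 2 * 4^(M-j) -
    ∑ i ∈ range (M+1), cM M q (M-i) * 2^(q+i) * (((2*(q+i)).choose (q+i) : ℕ) : ℚ) := by
  have h := gen0 (M+q)
  have hr : range (M+q+1) = range (q+(M+1)) := by congr 1; ring
  have hr2 : range q = range ((M+1)+(q-M-1)) := by congr 1; omega
  have e1 : ∑ j ∈ range (M+q+1), (((M+q).choose j : ℕ) : ℚ)^2 * 4^j = ∑ j ∈ range (M+1), cM M q j ^ 2 * 4^j + ∑ j ∈ range (q-M-1), cM M q (M+1+j) ^ 2 * 4^(M+1+j) + 4^q * ∑ j ∈ range (M+1), cM M q j ^ 2 * 4^(M-j) := by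
    rw [hr, sum_range_add, hr2, sum_range_add]
    have e3 : ∑ x ∈ range (M+1), (((M+q).choose (q+x) : ℕ) : ℚ)^2 * 4^(q+x) = 4^q * ∑ j ∈ range (M+1), cM M q j ^ 2 * 4^(M-j) := by
      rw [mul_sum, ← sum_range_reflect]
      refine sum_congr rfl fun x hx => ?_
      rw [mem_range] at hx
      rw [cM_refl M q _ (by omega), show M - (M+1-1-x) = x by omega, show M+1-1-x = M-x by omega, pow_add]
      ring
    rw [e3]
    rfl
  have e2 : ∑ k ∈ range (M+q+1), (((M+q).choose k : ℕ) : ℚ) * 2^k * (((2*k).choose k : ℕ) : ℚ) = ∑ k ∈ range q, cM M q k * 2^k * (((2*k).choose k : ℕ) : ℚ) + ∑ i ∈ range (M+1), cM M q (M-i) * 2^(q+i) * (((2*(q+i)).choose (q+i) : ℕ) : ℚ) := by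
    rw [hr, sum_range_add]
    congr 1
    refine sum_congr rfl fun i hi => ?_
    rw [mem_range] at hi
    rw [cM_refl M q i (by omega)]
  rw [e1, e2] at h
  linarith

end

end Pool.Agent.N926.Qf
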