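import Pool.Agent.N926.Qf.A
import Pool.Agent.N926.Qf.B

/-! the linear relation between the three sums modulo `p²` -/

set_option autoImplicit false
set_option linter.unusedVariables false
set_option linter.unusedSectionVars false

namespace Pool.Agent.N926.Qf

open Finset Pool.Agent.N926.Sup2 Pool.Agent.N926.Sup Pool.Agent.N926.F54 Pool.Agent.N926.F37 Pool.Agent.N926.Tri Pool.Agent.N926.Fib Pool.Agent.N926.Qd Pool.Agent.N926.Qe

noncomputable section

/-- generalised binomial coefficient -/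
def gb (a : ℚ) (k : ℕ) : ℚ := ∏ j ∈ range k, ((a - j)/((j:ℚ)+1))

theorem gb_nat (n k : ℕ) : gb n k = ((n.choose k : ℕ):ℚ) := (pb_prod n k).symm

theorem gb_succ (a : ℚ) (k : ℕ) : gb a (k+1) = gb a k * ((a - k)/((k:ℚ)+1)) := prod_range_succ _ _

def hd (M : ℕ) : ℕ → ℚ
  | 0 => 0
  | k+1 => (hd M k * ((M:ℚ) - k) + ((M.choose k : ℕ):ℚ)) / ((k:ℚ)+1)

section
variable {p : ℕ} [hp : Fact p.Prime]

theorem N1.sum {n : ℕ} (z a b : ℕ → ℚ) (h : ∀ k < n, N1 p (z k) (a k) (b k)) : N1 p (∑ k ∈ range n, z k) (∑ k ∈ range n, a k) (∑ k ∈ range n, b k) := by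
  induction n with
  | zero => simp only [sum_range_zero]; exact N1.const (Dv.zero _)
  | succ n ih =>
    rw [sum_range_succ, sum_range_succ, sum_range_succ]
    exact (ih fun k hk => h k (by omega)).add (h n (by omega))

theorem inv_j {j : ℕ} (hj : j + 1 < p) : Dv p 0 (1/((j:ℚ)+1)) := Dv.one.div_unit (unit_j hj)

theorem gb_N1 (M : ℕ) {t : ℚ} (ht : Dv p 0 t) : ∀ k, k < p → N1 p (gb (M + p*t) k) ((M.choose k : ℕ):ℚ) (t * hd M k) := by
  intro k
  induction k with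
  | zero =>
    intro _
    refine (N1.intc (p := p) 1).congr ?_ ?_ ?_
    · simp [gb]
    · simp
    · simp [hd]
  | succ k ih =>
    intro hk
    have iv := inv_j (p := p) hk
    have h1 : N1 p (((M:ℚ) + p*t - k)/((k:ℚ)+1)) (((M:ℚ) - k)/((k:ℚ)+1)) (t/((k:ℚ)+1)) := by
      refine ⟨Dv_eq ?_ (Dv.zero (p := p) 2), ?_, ?_⟩
      · ring
      · exact Dv_eq (by ring) (((Dv.nat (p := p) M).sub (Dv.nat k)).mul0 iv)
      · exact Dv_eq (by ring) (ht.mul0 iv)
    refine ((ih (by omega)).mul h1).congr (gb_succ _ _).symm ?_ ?_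
    · have := gb_succ (M:ℚ) k
      rw [gb_nat, gb_nat] at this
      rw [this]
    · show _ = t * ((hd M k * ((M:ℚ) - k) + ((M.choose k : ℕ):ℚ)) / ((k:ℚ)+1))
      ring

theorem cM_N1 (M : ℕ) {k : ℕ} (hk : k < p) : N1 p (cM M p k) ((M.choose k : ℕ):ℚ) (hd M k) := by
  refine (gb_N1 (p := p) M Dv.one k hk).congr ?_ rfl (by ring)
  unfold cM
  rw [← gb_nat]
  push_cast
  rw [mul_one]

def rho2 (p : ℕ) (i : ℕ) : ℚ := (((2*p).choose p : ℕ):ℚ) * ∏ j ∈ range i, (((j:ℚ)+1)*(2*p+j+1)/((p:ℚ)+j+1)^2)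

theorem rho2_fact (p i : ℕ) : rho2 p i * (((p+i).factorial : ℕ):ℚ)^2 = ((i.factorial : ℕ):ℚ) * (((2*p+i).factorial : ℕ):ℚ) := by
  induction i with
  | zero =>
    unfold rho2
    have := Nat.add_choose_mul_factorial_mul_factorial p p
    rw [show p+p = 2*p by ring] at this
    simp only [range_zero, prod_empty, mul_one, add_zero, Nat.factorial_zero]
    rw [← this]
    push_cast
    ring
  | succ i ih =>
    have e : rho2 p (i+1) = rho2 p i * (((i:ℚ)+1)*(2*p+i+1)/((p:ℚ)+i+1)^2) := by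
      unfold rho2; rw [prod_range_succ]; ring
    rw [e, show p+(i+1) = (p+i)+1 by ring, show 2*p+(i+1) = (2*p+i)+1 by ring, Nat.factorial_succ, Nat.factorial_succ, Nat.factorial_succ]
    have h0 : (p:ℚ)+i+1 ≠ 0 := by positivity
    push_cast
    field_simp
    linear_combination ih

theorem high_ratio (p i : ℕ) : (((2*(p+i)).choose (p+i) : ℕ):ℚ) = rho2 p i * (((2*(p+i)).choose (2*p+i) : ℕ):ℚ) := by
  have h1 := Nat.add_choose_mul_factorial_mul_factorial (p+i) (p+i)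
  have h2 := Nat.add_choose_mul_factorial_mul_factorial (2*p+i) i
  rw [show p+i+(p+i) = 2*(p+i) by ring] at h1
  rw [show 2*p+i+i = 2*(p+i) by ring, ← Nat.choose_symm_of_eq_add (show 2*(p+i) = (2*p+i) + i by ring)] at h2
  have h3 := rho2_fact p i
  have n1 : (((p+i).factorial : ℕ):ℚ)^2 ≠ 0 := by positivity
  refine mul_right_cancel₀ n1 ?_
  have h1' : (((2*(p+i)).choose (p+i) : ℕ):ℚ) * (((p+i).factorial : ℕ):ℚ) * (((p+i).factorial : ℕ):ℚ) = (((2*(p+i)).factorial : ℕ):ℚ) := by exact_mod_cast h1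
  have h2' : (((2*(p+i)).choose (2*p+i) : ℕ):ℚ) * (((2*p+i).factorial : ℕ):ℚ) * ((i.factorial : ℕ):ℚ) = (((2*(p+i)).factorial : ℕ):ℚ) := by exact_mod_cast h2
  linear_combination h1' - h2' - (((2*(p+i)).choose (2*p+i) : ℕ):ℚ) * h3

theorem rho2_N1 {i : ℕ} (hi : i < p) : N1 p (rho2 p i) 2 0 := by
  induction i with
  | zero =>
    refine ⟨?_, by have := Dv.int (p := p) 2; push_cast at this; exact this, Dv.zero _⟩
    refine Dv_eq ?_ (cpp (p := p))
    unfold rho2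
    simp
  | succ i ih =>
    have e : rho2 p (i+1) = rho2 p i * (((i:ℚ)+1)*(2*p+i+1)/((p:ℚ)+i+1)^2) := by
      unfold rho2; rw [prod_range_succ]; ring
    have hu : padicValRat p (((p+i+1 : ℕ):ℚ)) = 0 := by
      refine unit_nat ?_
      rintro ⟨c, hc⟩
      rcases c with _ | _ | c
      · omega
      · omega
      · have : p * (c+1+1) = p*c + p + p := by ring
        have h0 : 0 ≤ p*c := Nat.zero_le _
        omega
    have iv : Dv p 0 (1/(((p+i+1 : ℕ):ℚ))) := Dv.one.div_unit hu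
    have h1 : N1 p (((i:ℚ)+1)*(2*p+i+1)/((p:ℚ)+i+1)^2) 1 0 := by
      refine ⟨?_, Dv.one, Dv.zero _⟩
      refine Dv_eq ?_ ((Dv.p_pow (p := p) 2).mul0 (iv.mul0 iv)).neg
      have h0 : (p:ℚ)+i+1 ≠ 0 := by positivity
      push_cast
      field_simp
      ring
    rw [e]
    exact ((ih (by omega)).mul h1).congr rfl (by ring) (by ring)

theorem T1_N1 (M : ℕ) (hM : M < p) {q : ℚ} (hq : N1 p ((2:ℚ)^p) 2 (2*q)) :
    N1 p (∑ k ∈ range p, cM M p k * 2^k * (((2*k).choose k : ℕ) : ℚ)) (∑ j ∈ range (M+1), ((M.choose j : ℕ):ℚ)^2 * 4^j)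
      (-2 * ∑ j ∈ range (M+1), ((M.choose j : ℕ):ℚ) * hd M j * 4^j + 4 * ∑ j ∈ range (M+1), ((M.choose j : ℕ):ℚ) * hd M j * 4^(M-j) + 4 * q * ∑ j ∈ range (M+1), ((M.choose j : ℕ):ℚ)^2 * 4^j) := by
  have pw4 : ∀ n : ℕ, N1 p ((4:ℚ)^n) (4^n) 0 := fun n => N1.const (by
    have := Dv.nat (p := p) (4^n)
    push_cast at this; exact this)
  have n1 : N1 p (∑ j ∈ range (M+1), cM M p j ^ 2 * 4^j) (∑ j ∈ range (M+1), ((M.choose j : ℕ):ℚ)^2 * 4^j) (∑ j ∈ range (M+1), 2 * (((M.choose j : ℕ):ℚ) * hd M j * 4^j)) :=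
    N1.sum _ _ _ fun j hj => ((((cM_N1 (p := p) M (show j < p by omega)).mul (cM_N1 (p := p) M (show j < p by omega))).mul (pw4 j)).congr (by ring) (by ring) (by ring))
  have n3 : N1 p (∑ j ∈ range (M+1), cM M p j ^ 2 * 4^(M-j)) (∑ j ∈ range (M+1), ((M.choose j : ℕ):ℚ)^2 * 4^(M-j)) (∑ j ∈ range (M+1), 2 * (((M.choose j : ℕ):ℚ) * hd M j * 4^(M-j))) :=
    N1.sum _ _ _ fun j hj => ((((cM_N1 (p := p) M (show j < p by omega)).mul (cM_N1 (p := p) M (show j < p by omega))).mul (pw4 (M-j))).congr (by ring) (by ring) (by ring))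
  have n13 : N1 p (∑ j ∈ range (M+1), cM M p (M-j) * cM M p j * 4^j) (∑ j ∈ range (M+1), ((M.choose j : ℕ):ℚ)^2 * 4^j)
      (∑ j ∈ range (M+1), (((M.choose j : ℕ):ℚ) * hd M j * 4^j + ((M.choose (M-j) : ℕ):ℚ) * hd M (M-j) * 4^(M-(M-j)))) :=
    N1.sum _ _ _ fun j hj => ((((cM_N1 (p := p) M (show M-j < p by omega)).mul (cM_N1 (p := p) M (show j < p by omega))).mul (pw4 j)).congr (by ring)
      (by rw [Nat.choose_symm (by omega)]; ring) (by rw [Nat.choose_symm (by omega), show M-(M-j) = j by omega]; ring))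
  have nm : N1 p (∑ j ∈ range (p-M-1), cM M p (M+1+j) ^ 2 * 4^(M+1+j)) 0 0 := by
    have := N1.sum (p := p) (n := p-M-1) (fun j => cM M p (M+1+j) ^ 2 * 4^(M+1+j)) (fun _ => 0) (fun _ => 0) fun j hj => by
      have h1 := cM_N1 (p := p) M (show M+1+j < p by omega)
      rw [Nat.choose_eq_zero_of_lt (show M < M+1+j by omega)] at h1
      exact ((h1.mul h1).mul (pw4 (M+1+j))).congr (by ring) (by push_cast; ring) (by push_cast; ring)
    simpa using this
  have n4 : N1 p ((4:ℚ)^p) 4 (8*q) := by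
    refine (hq.mul hq).congr ?_ (by ring) (by ring)
    rw [← mul_pow]; norm_num
  have nh : N1 p (∑ i ∈ range (M+1), cM M p (M-i) * 2^(p+i) * (((2*(p+i)).choose (p+i) : ℕ) : ℚ)) (2*(2*(∑ j ∈ range (M+1), ((M.choose j : ℕ):ℚ)^2 * 4^j)))
      (2*(2*(∑ j ∈ range (M+1), (((M.choose j : ℕ):ℚ) * hd M j * 4^j + ((M.choose (M-j) : ℕ):ℚ) * hd M (M-j) * 4^(M-(M-j)))) + 2*q*(∑ j ∈ range (M+1), ((M.choose j : ℕ):ℚ)^2 * 4^j))) := by
    have a := (N1.intc (p := p) 2).mul (hq.mul n13)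
    refine (a.cong ?_).congr rfl (by push_cast; ring) (by push_cast; ring)
    rw [genq, mul_sum, ← sum_sub_distrib]
    refine Dv.sum _ _ fun i hi => ?_
    rw [mem_range] at hi
    have r := rho2_N1 (p := p) (show i < p by omega)
    have c0 : Dv p 0 (cM M p (M-i) * 2^(p+i) * (((2*(p+i)).choose (2*p+i) : ℕ) : ℚ)) := by
      have h1 := Dv.nat (p := p) ((M+p).choose (M-i) * 2^(p+i) * ((2*(p+i)).choose (2*p+i)))
      unfold cM
      push_cast at h1 ⊢
      exact h1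
    refine Dv_eq ?_ (r.1.mul0 c0)
    rw [high_ratio]
    push_cast
    ring
  have e3 : ∑ j ∈ range (M+1), ((M.choose j : ℕ):ℚ)^2 * 4^(M-j) = ∑ j ∈ range (M+1), ((M.choose j : ℕ):ℚ)^2 * 4^j := by
    rw [← sum_range_reflect]
    refine sum_congr rfl fun j hj => ?_
    rw [mem_range] at hj
    rw [show M+1-1-j = M-j by omega, Nat.choose_symm (by omega), show M-(M-j) = j by omega]
  have e4 : ∑ j ∈ range (M+1), ((M.choose (M-j) : ℕ):ℚ) * hd M (M-j) * 4^(M-(M-j)) = ∑ j ∈ range (M+1), ((M.choose j : ℕ):ℚ) * hd M j * 4^(M-j) := by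
    rw [← sum_range_reflect (fun j => ((M.choose j : ℕ):ℚ) * hd M j * 4^(M-j))]
    refine sum_congr rfl fun j hj => ?_
    rw [mem_range] at hj
    rw [show M+1-1-j = M-j by omega]
  have h := gen_split M p hM
  rw [h]
  have fin := ((n1.add nm).add (n4.mul n3)).sub nh
  rw [e3, sum_add_distrib, e4, ← mul_sum, ← mul_sum] at fin
  refine fin.congr rfl ?_ ?_
  · ring
  · ring

/-- the linear relation -/
theorem rel (M : ℕ) (hM : M < p) {c κ q : ℚ} (hc : 4*(M:ℚ)+1 = c*p) (h4 : Dv p 0 (c/4)) (hq : N1 p ((2:ℚ)^p) 2 (2*q))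
    (hκ : N1 p ((4:ℚ)^M) κ (κ*(c/2)*q)) (i4 : Dv p 0 (1/4:ℚ)) :
    Dv p 2 (∑ k ∈ range p, gb (-1/4) k * (2^k * (((2*k).choose k : ℕ) : ℚ)) - (2*κ*∑ k ∈ range p, gb (-1/4) k^2 * (1/4)^k - ∑ k ∈ range p, gb (-1/4) k^2 * 4^k)) := by
  have q0 : Dv p 0 q := by
    have h2 := hq.2.2
    have h3 := (h2.mul0 i4).mul0 (Dv.int (p := p) 2)
    refine Dv_eq ?_ h3
    push_cast; ring
  have T := T1_N1 (p := p) M hM hq
  have t0 : Dv p 0 (-(c/4)) := h4.neg
  have ea : (M:ℚ) + p*(-(c/4)) = -1/4 := by linear_combination (1/4)*hc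
  have ng : ∀ k, k < p → N1 p (gb (-1/4) k) ((M.choose k : ℕ):ℚ) (-(c/4) * hd M k) := by
    intro k hk
    have := gb_N1 (p := p) M t0 k hk
    rw [ea] at this
    exact this
  have pw4 : ∀ n : ℕ, N1 p ((4:ℚ)^n) (4^n) 0 := fun n => N1.const (by
    have := Dv.nat (p := p) (4^n)
    push_cast at this; exact this)
  have hcut : ∀ f : ℕ → ℚ, (∀ k, M < k → f k = 0) → ∑ k ∈ range p, f k = ∑ k ∈ range (M+1), f k := by
    intro f hf
    have : range p = range ((M+1)+(p-M-1)) := by congr 1; omega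
    rw [this, sum_range_add]
    rw [sum_eq_zero (s := range (p-M-1)) fun x _ => hf _ (by omega), add_zero]
  set F := ∑ j ∈ range (M+1), ((M.choose j : ℕ):ℚ)^2 * 4^j with hF
  set h1 := ∑ j ∈ range (M+1), ((M.choose j : ℕ):ℚ) * hd M j * 4^j with hh1
  set h3 := ∑ j ∈ range (M+1), ((M.choose j : ℕ):ℚ) * hd M j * 4^(M-j) with hh3
  -- S1
  have nS1 : N1 p (∑ k ∈ range p, gb (-1/4) k^2 * 4^k) F (2*(-(c/4))*h1) := by
    have a := N1.sum (p := p) (n := p) (fun k => gb (-1/4) k^2 * 4^k) (fun k => ((M.choose k : ℕ):ℚ)^2 * 4^k) (fun k => 2*(-(c/4))*(((M.choose k : ℕ):ℚ) * hd M k * 4^k))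
      fun k hk => (((ng k hk).mul (ng k hk)).mul (pw4 k)).congr (by ring) (by ring) (by ring)
    rw [← mul_sum] at a
    rw [hcut (fun k => ((M.choose k : ℕ):ℚ)^2 * 4^k) (fun k hk => by rw [Nat.choose_eq_zero_of_lt hk]; simp),
      hcut (fun k => ((M.choose k : ℕ):ℚ) * hd M k * 4^k) (fun k hk => by rw [Nat.choose_eq_zero_of_lt hk]; simp)] at a
    exact a
  -- S3
  have nS3 : N1 p (4^M * ∑ k ∈ range p, gb (-1/4) k^2 * (1/4)^k) F (2*(-(c/4))*h3) := by
    have p14 : ∀ n : ℕ, N1 p ((1/4:ℚ)^n) ((1/4)^n) 0 := by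
      intro n
      refine N1.const ?_
      induction n with
      | zero => rw [pow_zero]; exact Dv.one
      | succ n ih => rw [pow_succ]; exact ih.mul0 i4
    have a := N1.sum (p := p) (n := p) (fun k => 4^M * (gb (-1/4) k^2 * (1/4)^k)) (fun k => ((M.choose k : ℕ):ℚ)^2 * (4^M*(1/4)^k)) (fun k => 2*(-(c/4))*(((M.choose k : ℕ):ℚ) * hd M k * (4^M*(1/4)^k)))
      fun k hk => ((pw4 M).mul (((ng k hk).mul (ng k hk)).mul (p14 k))).congr (by ring) (by ring) (by ring)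
    rw [← mul_sum, ← mul_sum] at a
    rw [hcut (fun k => ((M.choose k : ℕ):ℚ)^2 * (4^M*(1/4)^k)) (fun k hk => by rw [Nat.choose_eq_zero_of_lt hk]; simp),
      hcut (fun k => ((M.choose k : ℕ):ℚ) * hd M k * (4^M*(1/4)^k)) (fun k hk => by rw [Nat.choose_eq_zero_of_lt hk]; simp)] at a
    have pe : ∀ k, k < M+1 → (4:ℚ)^M*(1/4)^k = 4^(M-k) := by
      intro k hk
      have : (4:ℚ)^M = 4^(M-k) * 4^k := by rw [← pow_add]; congr 1; omega
      rw [this, mul_assoc, ← mul_pow]; norm_num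
    refine a.congr rfl ?_ ?_
    · rw [hF, ← sum_range_reflect]
      refine sum_congr rfl fun j hj => ?_
      rw [mem_range] at hj
      rw [pe _ (by omega), show M+1-1-j = M-j by omega, Nat.choose_symm (by omega), show M-(M-j) = j by omega]
    · congr 1
      refine sum_congr rfl fun j hj => ?_
      rw [mem_range] at hj
      rw [pe _ hj]
  -- S2
  have nS2 : N1 p (∑ k ∈ range p, gb (-1/4) k * (2^k * (((2*k).choose k : ℕ) : ℚ))) F (-(c/4) * (-2*h1 + 4*h3 + 4*q*F)) := by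
    have b0 : ∀ k : ℕ, Dv p 0 ((2:ℚ)^k * (((2*k).choose k : ℕ) : ℚ)) := fun k => by
      have := Dv.nat (p := p) (2^k * (2*k).choose k)
      push_cast at this; exact this
    have e0 : ∑ k ∈ range p, ((M.choose k : ℕ):ℚ) * (2^k * (((2*k).choose k : ℕ) : ℚ)) = F := by
      rw [hcut (fun k => ((M.choose k : ℕ):ℚ) * (2^k * (((2*k).choose k : ℕ) : ℚ))) (fun k hk => by rw [Nat.choose_eq_zero_of_lt hk]; simp)]
      rw [hF, gen0 M]
      exact sum_congr rfl fun k _ => by ring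
    have a := N1.sum (p := p) (n := p) (fun k => gb (-1/4) k * (2^k * (((2*k).choose k : ℕ) : ℚ))) (fun k => ((M.choose k : ℕ):ℚ) * (2^k * (((2*k).choose k : ℕ) : ℚ)))
      (fun k => -(c/4) * (hd M k * (2^k * (((2*k).choose k : ℕ) : ℚ)))) fun k hk => ((ng k hk).mul (N1.const (b0 k))).congr rfl rfl (by ring)
    have b := N1.sum (p := p) (n := p) (fun k => cM M p k * 2^k * (((2*k).choose k : ℕ) : ℚ)) (fun k => ((M.choose k : ℕ):ℚ) * (2^k * (((2*k).choose k : ℕ) : ℚ)))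
      (fun k => hd M k * (2^k * (((2*k).choose k : ℕ) : ℚ))) fun k hk => ((cM_N1 (p := p) M hk).mul (N1.const (b0 k))).congr (by ring) rfl (by ring)
    rw [e0] at a b
    rw [← mul_sum] at a
    set G := ∑ k ∈ range p, hd M k * (2^k * (((2*k).choose k : ℕ) : ℚ)) with hG
    -- compare `b` and `T`
    have d : Dv p 2 (p * (G - (-2*h1 + 4*h3 + 4*q*F))) := by
      refine Dv_eq ?_ (T.1.sub b.1)
      ring
    refine ⟨?_, a.2.1, t0.mul0 T.2.2⟩
    refine Dv_eq ?_ (a.1.add (d.mul0 t0))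
    ring
  -- combine
  have s30 : Dv p 0 (∑ k ∈ range p, gb (-1/4) k^2 * (1/4)^k) := by
    refine Dv.sum _ _ fun k hk => ?_
    rw [mem_range] at hk
    have g0 := (ng k hk).int
    have : Dv p 0 ((1/4:ℚ)^k) := by
      clear hk g0
      induction k with
      | zero => rw [pow_zero]; exact Dv.one
      | succ n ih => rw [pow_succ]; exact ih.mul0 i4
    exact (Dv_eq (by ring) (g0.mul0 g0)).mul0 this
  generalize ∑ k ∈ range p, gb (-1/4) k^2 * (1/4)^k = s3 at *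
  generalize ∑ k ∈ range p, gb (-1/4) k^2 * 4^k = s1 at *
  generalize ∑ k ∈ range p, gb (-1/4) k * (2^k * (((2*k).choose k : ℕ) : ℚ)) = s2 at *
  have dp := Dv.p1 (p := p)
  have two0 : Dv p 0 (2:ℚ) := by have := Dv.nat (p := p) 2; push_cast at this; exact this
  have c20 : Dv p 0 (c/2) := Dv_eq (by ring) (h4.mul0 two0)
  have k1 : Dv p 1 (κ*s3 - F) := by
    have a1 := nS3.one1
    have a2 := hκ.one1.mul0 s30
    refine Dv_eq ?_ (a1.sub a2)
    ring
  have k2 : Dv p 2 (p*(κ*s3 - F)) := dp.mul k1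
  have k3 : Dv p 2 (4^M*s3 - κ*s3 - p*((c/2)*q*F)) := by
    refine Dv_eq ?_ ((hκ.1.mul0 s30).add (k2.mul0 (c20.mul0 q0)))
    ring
  have k4 := (nS3.1.sub k3).mul0 two0
  refine Dv_eq ?_ ((nS2.1.add nS1.1).sub k4)
  ring

end

end

end Pool.Agent.N926.Qf
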