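import Pool.Agent.N926.Qf.C

/-! reduction of the first and the third sum to Legendre polynomials; powers of two -/

set_option autoImplicit false
set_option linter.unusedVariables false
set_option linter.unusedSectionVars false

namespace Pool.Agent.N926.Qf

open Finset Pool.Agent.N926.Sup2 Pool.Agent.N926.Sup Pool.Agent.N926.F54 Pool.Agent.N926.F37 Pool.Agent.N926.Tri Pool.Agent.N926.Fib Pool.Agent.N926.Qd Pool.Agent.N926.Qe

noncomputable section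

section
variable {p : ℕ} [hp : Fact p.Prime]

theorem prod_cong2 (a b : ℕ → ℚ) : ∀ k : ℕ, (∀ j < k, Dv p 0 (a j) ∧ Dv p 0 (b j) ∧ Dv p 2 (a j - b j)) →
    Dv p 0 (∏ j ∈ range k, a j) ∧ Dv p 0 (∏ j ∈ range k, b j) ∧ Dv p 2 (∏ j ∈ range k, a j - ∏ j ∈ range k, b j) := by
  intro k
  induction k with
  | zero => intro _; simp only [range_zero, prod_empty]; exact ⟨Dv.one, Dv.one, Dv_eq (by ring) (Dv.zero (p := p) 2)⟩
  | succ k ih =>
    intro h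
    obtain ⟨i1, i2, i3⟩ := ih fun j hj => h j (by omega)
    obtain ⟨j1, j2, j3⟩ := h k (by omega)
    rw [prod_range_succ, prod_range_succ]
    refine ⟨i1.mul0 j1, i2.mul0 j2, ?_⟩
    refine Dv_eq ?_ ((i3.mul0 j1).add (j3.mul0 i2))
    ring

theorem gb_sq (k : ℕ) : gb (-1/4) k ^ 2 * 4^k = ∏ j ∈ range k, ((2*(j:ℚ)+1/2)^2/((j:ℚ)+1)^2) := by
  unfold gb
  have : (4:ℚ)^k = ∏ j ∈ range k, (4:ℚ) := by rw [prod_const, card_range]
  rw [← prod_pow, this, ← prod_mul_distrib]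
  refine prod_congr rfl fun j _ => ?_
  have : (j:ℚ)+1 ≠ 0 := by positivity
  field_simp
  ring

theorem ee_cong (M : ℕ) {c : ℚ} (hc : 4*(M:ℚ)+1 = c*p) (c2 : Dv p 0 (c/2)) (th : Dv p 0 (1/2:ℚ)) {k : ℕ} (hk : k < p) :
    Dv p 0 (gb (-1/4) k ^ 2 * 4^k) ∧ Dv p 0 (ee M k) ∧ Dv p 2 (gb (-1/4) k ^ 2 * 4^k - ee M k) := by
  rw [gb_sq]
  unfold ee
  refine prod_cong2 (p := p) _ _ k fun j hj => ?_
  have iv := inv_j (p := p) (show j+1 < p by omega)
  have two0 : Dv p 0 (2:ℚ) := by have := Dv.nat (p := p) 2; push_cast at this; exact this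
  have h0 : (j:ℚ)+1 ≠ 0 := by positivity
  have a1 : Dv p 0 (2*(j:ℚ)+1/2) := (Dv_eq (by ring) ((Dv.nat (p := p) j).mul0 two0) : Dv p 0 (2*(j:ℚ))).add th
  refine ⟨Dv_eq ?_ ((a1.mul0 a1).mul0 (iv.mul0 iv)), ?_, ?_⟩
  · field_simp
  · have b1 : Dv p 0 (2*(j:ℚ)-2*M) := by
      have := Dv.int (p := p) (2*j-2*M)
      push_cast at this; exact this
    have b2 : Dv p 0 (2*(j:ℚ)+2*M+1) := by
      have := Dv.int (p := p) (2*j+2*M+1)
      push_cast at this; exact this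
    refine Dv_eq ?_ ((b1.mul0 b2).mul0 (iv.mul0 iv))
    field_simp
  · refine Dv_eq ?_ (((Dv.p_pow (p := p) 2).mul0 (c2.mul0 c2)).mul0 (iv.mul0 iv))
    field_simp
    linear_combination (-(4*(M:ℚ)+1+c*p)) * hc

/-- the weighted sum of squares against powers of `s` -/
theorem sq_cong (M : ℕ) (hM : M < p) {c : ℚ} (hc : 4*(M:ℚ)+1 = c*p) (c2 : Dv p 0 (c/2)) (th : Dv p 0 (1/2:ℚ)) {s : ℚ} (hs : Dv p 0 s) :
    Dv p 2 (∑ k ∈ range p, gb (-1/4) k ^ 2 * (4*s)^k - ∑ k ∈ range (M+1), ee M k * s^k) := by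
  have hcut : ∑ k ∈ range (M+1), ee M k * s^k = ∑ k ∈ range p, ee M k * s^k := by
    have e := sum_range_add (fun k => ee M k * s^k) (M+1) (p-M-1)
    rw [show M+1+(p-M-1) = p by omega] at e
    have z : ∑ x ∈ range (p-M-1), ee M (M+1+x) * s^(M+1+x) = 0 := sum_eq_zero fun x _ => by rw [ee_zero (by omega), zero_mul]
    rw [z, add_zero] at e
    exact e.symm
  rw [hcut, ← sum_sub_distrib]
  refine Dv.sum _ _ fun k hk => ?_
  rw [mem_range] at hk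
  have sk : Dv p 0 (s^k) := by
    clear hk
    induction k with
    | zero => rw [pow_zero]; exact Dv.one
    | succ n ih => rw [pow_succ]; exact ih.mul0 hs
  refine Dv_eq ?_ ((ee_cong (p := p) M hc c2 th hk).2.2.mul0 sk)
  rw [mul_pow]; ring

theorem Sg_const {R : Type*} [CommRing R] (A : ℚ →+* R) (f : ℕ → ℚ) (N : ℕ) (x : ℚ) : Sg A f N (A x) = A (∑ k ∈ range N, f k * x^k) := by
  unfold Sg
  rw [map_sum]
  exact sum_congr rfl fun k _ => by rw [map_mul, map_pow]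

theorem zz1 : zz * (1 - zz) = A12 1 := by rw [map_one, mul_comm]; exact f4

theorem z11 : z1 * (1 - z1) = AA3 (1/16) := by rw [z1_c]; exact z1_n

/-- the value at `zz` -/
theorem val1 (M : ℕ) : (Sg A12 (leg (2*M)) (2*M+1) zz).re.re = ∑ k ∈ range (M+1), ee M k * 1^k := by
  rw [quad_ring, zz1, Sg_const]
  rfl

/-- the value at `z1` -/
theorem val3 (M : ℕ) : (Sx (leg (2*M)) (2*M+1) z1).re = ∑ k ∈ range (M+1), ee M k * (1/16)^k := by
  have : Sx (leg (2*M)) (2*M+1) z1 = Sg AA3 (leg (2*M)) (2*M+1) z1 := rfl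
  rw [this, quad_ring, z11, Sg_const]
  rfl

/-- `2^h` and `2^p` to first order -/
theorem two_N1 (p3 : 3 < p) {h : ℕ} (hh : p = 2*h+1) {l : ℚ} (hl : l = ((legendreSym p 2 : ℤ) : ℚ)) :
    ∃ q : ℚ, N1 p ((2:ℚ)^p) 2 (2*q) ∧ N1 p ((2:ℚ)^h) l (l*q/2) := by
  have F := Tri.fermat (p := p) (nd2 p3)
  have e0 : p - 1 = 2*h := by omega
  rw [e0] at F
  obtain ⟨hlv, h1⟩ := two_h (p := p) p3 hh
  rw [← hl] at h1
  have hl' : l = 1 ∨ l = -1 := by rcases hlv with h | h <;> rw [hl, h] <;> norm_num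
  have ll : l^2 = 1 := by rcases hl' with h | h <;> rw [h] <;> norm_num
  have l0 : Dv p 0 l := by rw [hl]; exact Dv.int _
  have p0 : (p:ℚ) ≠ 0 := by exact_mod_cast hp.out.ne_zero
  have th := half_int' (p := p) p3
  obtain ⟨q, hq⟩ : ∃ q : ℚ, ((2:ℕ):ℚ)^(2*h) - 1 = p*q := ⟨(((2:ℕ):ℚ)^(2*h) - 1)/p, by field_simp⟩
  have q0 : Dv p 0 q := Dv.of_p_mul (n := 1) (Dv_eq (by rw [hq]; ring) F)
  have two0 : Dv p 0 (2:ℚ) := by have := Dv.nat (p := p) 2; push_cast at this; exact this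
  have e2 : ((2:ℕ):ℚ)^(2*h) = ((2:ℚ)^h)^2 := by rw [← pow_mul, mul_comm h]; norm_num
  rw [e2] at hq
  refine ⟨q, ⟨?_, two0, Dv_eq (by ring) (q0.mul0 two0)⟩, ⟨?_, l0, Dv_eq (by ring) ((l0.mul0 q0).mul0 th)⟩⟩
  · have e3 : (2:ℚ)^p = 2*((2:ℚ)^h)^2 := by rw [← pow_mul, mul_comm h]; conv_lhs => rw [hh, pow_succ]
                                            ring
    refine Dv_eq ?_ (Dv.zero (p := p) 2)
    rw [e3]
    linear_combination (-2:ℚ)*hq
  · -- `(2^h - l)^2 ∈ p^2`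
    have h2 : Dv p 2 (((2:ℚ)^h - l)*((2:ℚ)^h - l)) := h1.mul h1
    have h3 := (h2.mul0 (l0.mul0 th)).neg
    refine Dv_eq ?_ h3
    linear_combination (-(l/2))*hq + ((2:ℚ)^h - l/2) * ll

end

end

end Pool.Agent.N926.Qf
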