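import Pool.Agent.N926.Qf.D

/-! values for `p ≡ 1 (mod 12)` -/

set_option autoImplicit false
set_option linter.unusedVariables false
set_option linter.unusedSectionVars false

namespace Pool.Agent.N926.Qf

open Finset Pool.Agent.N926.Sup2 Pool.Agent.N926.Sup Pool.Agent.N926.F54 Pool.Agent.N926.F37 Pool.Agent.N926.Tri Pool.Agent.N926.Fib Pool.Agent.N926.Qd Pool.Agent.N926.Qe

noncomputable section

section
variable {p : ℕ} [hp : Fact p.Prime]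

theorem comp_even_re (h j : ℕ) (hj : h = 2*j) (D a b : ℚ) (S : R3)
    (hr : Dr p 2 (AA3 D * cj S - Qd.s3^h * cj (eE^h) * (⟨a,b⟩ : R3))) :
    Dv p 2 (D * S.re - 3^j*((eE^h).re*a - 3*((eE^h).im*b))) := by
  have e : Qd.s3^h = AA3 (3^j) := by rw [hj]; exact s3_even j
  rw [e] at hr
  refine Dv_eq ?_ hr.1
  simp only [QuadraticAlgebra.re_sub, QuadraticAlgebra.im_mul, QuadraticAlgebra.re_mul, cj_re, cj_im, A3_re, A3_im]
  ring

/-- data of the even case -/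
theorem even_data (p3 : 3 < p) {i : ℕ} (hi : p = 6*i+1) (i1 : 1 ≤ i) (hev : i % 2 = 0) {j : ℕ} (hj : 3*i = 2*j)
    (l f x2 x3 : ℚ) (hl : l = ((legendreSym p 2 : ℤ) : ℚ)) (hf : f = CC i) (hx2 : x2 = Hs 1 (2*i)) (hx3 : x3 = Hs 1 (3*i)) :
    ∃ v : ℚ, N1 p (eE^(3*i)).re l 0 ∧ N1 p (eE^(3*i)).im 0 v ∧ N1 p (eE^p).re 2 (6*l*v) ∧ N1 p (eE^p).im 1 (4*l*v) ∧
      N1 p (Sx Qd.tt (3*i+1) Qd.x1).re (l*3^j*f) (l*3^j*f*(2/3*x2 - 1/3*x3)) ∧ N1 p (Sx Qd.tt (3*i+1) Qd.x1).im 0 0 := by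
  have D := mkData p3 hi i1
  rw [← hf, ← hx2, ← hx3] at D
  have hh : p = 2*(3*i)+1 := by omega
  have hs1 : ((-1:ℚ)^i) = 1 := Even.neg_one_pow ⟨i/2, by omega⟩
  have hth := D.th
  rw [hs1] at hth
  have dp := Dv.p1 (p := p)
  have one_le : (1:ℤ) ≤ 2 := by norm_num
  have h31 : Dv p 1 ((3:ℚ)^(3*i) - 1) := by
    refine Dv_eq ?_ ((hth.1.mono one_le).add (dp.mul0 hth.2.2))
    ring
  obtain ⟨hV1, hU2⟩ := UV_even (p := p) p3 hh h31
  obtain ⟨hlv, -⟩ := two_h (p := p) p3 hh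
  obtain ⟨eX, eY⟩ := ePow (p := p) (3*i) hh
  have hres := comp_even_re (p := p) (3*i) j hj _ _ _ _ (res_one p3 hi _ rfl)
  have him := first_even p3 hi i1 hev
  set K4 := -2 * (((p+3*i).choose (3*i) : ℕ) : ℚ)
  rw [← hl] at hU2
  have hl' : l = 1 ∨ l = -1 := by rcases hlv with h | h <;> rw [hl, h] <;> norm_num
  have ll : l^2 = 1 := by rcases hl' with h | h <;> rw [h] <;> norm_num
  have l0 : Dv p 0 l := by rw [hl]; exact Dv.int _
  set U := (eE^(3*i)).re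
  set V := (eE^(3*i)).im
  set X := (eE^p).re
  set Y := (eE^p).im
  have p0 : (p:ℚ) ≠ 0 := by exact_mod_cast hp.out.ne_zero
  obtain ⟨v, hv⟩ : ∃ v, V = p*v := ⟨V/p, by field_simp⟩
  have v0 : Dv p 0 v := Dv.of_p_mul (n := 1) (Dv_eq (by rw [hv]; ring) hV1)
  have nU : N1 p U l 0 := ⟨Dv_eq (by ring) hU2, l0, Dv.zero _⟩
  have nV : N1 p V 0 v := ⟨Dv_eq (by rw [hv]; ring) (Dv.zero (p := p) 2), Dv.zero _, v0⟩
  have nX : N1 p X 2 (6*l*v) := by
    have := ((N1.intc (p := p) 2).mul ((nU.mul nU).add ((N1.intc 3).mul (nV.mul nV)))).add ((N1.intc 6).mul (nU.mul nV))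
    refine this.congr ?_ ?_ ?_
    · rw [eX]; push_cast; ring
    · push_cast; linear_combination 2*ll
    · push_cast; ring
  have nY : N1 p Y 1 (4*l*v) := by
    have := ((nU.mul nU).add ((N1.intc 3).mul (nV.mul nV))).add ((N1.intc 4).mul (nU.mul nV))
    refine this.congr ?_ ?_ ?_
    · rw [eY]; push_cast; ring
    · push_cast; linear_combination ll
    · push_cast; ring
  have n3 : N1 p (3^(3*i)) 1 (-x2/3) := hth.congr rfl rfl (by ring)
  have nD : N1 p (4 - 2*K4*X) 12 (24*l*v + 8*x3) := by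
    have := (N1.intc (p := p) 4).sub ((N1.intc 2).mul (D.K4.mul nX))
    refine this.congr ?_ ?_ ?_
    · push_cast; ring
    · push_cast; ring
    · push_cast; ring
  have nb : N1 p (3^(3*i)*FF (3*i+p)*(K4-2*X) - 3*FF (3*i)*K4*Y) 0 (12*l*v*f) := by
    have := ((n3.mul D.F1).mul (D.K4.sub ((N1.intc 2).mul nX))).sub ((N1.intc 3).mul (D.F0.mul (D.K4.mul nY)))
    refine this.congr ?_ ?_ ?_
    · push_cast; ring
    · push_cast; ring
    · push_cast; ring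
  have na : N1 p (6*3^(3*i)*Y*FF (3*i+p) + 6*FF (3*i)) (12*f) (f*(8*x2+4*x3+24*l*v)) := by
    have := (N1.intc (p := p) 6).mul (((n3.mul nY).mul D.F1).add D.F0)
    refine this.congr ?_ ?_ ?_
    · push_cast; ring
    · push_cast; ring
    · push_cast; ring
  have n3j : N1 p ((3:ℚ)^j) (3^j) 0 := by
    have := Dv.nat (p := p) (3^j)
    push_cast at this
    exact N1.const this
  have nE := ((nU.mul na).sub ((N1.intc 3).mul (nV.mul nb))).mul n3j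
  have nR : N1 p ((4-2*K4*X) * (Sx Qd.tt (3*i+1) Qd.x1).re) (12*(l*3^j*f)) (l*3^j*f*(8*x2+4*x3+24*l*v)) := by
    refine (nE.congr (a' := 12*(l*3^j*f)) (b' := l*3^j*f*(8*x2+4*x3+24*l*v)) rfl (by push_cast; ring) (by push_cast; ring)).cong ?_
    refine Dv_eq ?_ hres
    push_cast
    ring
  refine ⟨v, nU, nV, nX, nY, ?_, ⟨Dv_eq (by ring) him, Dv.zero _, Dv.zero _⟩⟩
  exact (nD.solve12 p3 (Qd.S_int p3 (3*i+1)).1 nR).congr rfl (by ring) (by ring)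

/-- the equation at `z1`, even case -/
theorem eqS_even (p3 : 3 < p) {h : ℕ} (hh : p = 2*h+1) (hev : h % 2 = 0) :
    Dv p 2 (Sx Qd.tt (h+1) z1).im ∧
    Dv p 2 ((1 + 3 * leg (h+p) p * (z1^p).re) * (Sx Qd.tt (h+1) z1).re -
      2 * leg (h+p) p * (z1^p * (AA3 (1/Qd.tt h) * (z1^h * cj (Sx Qd.tt (h+1) Qd.x1)))).re) := by
  have h2 : p ≠ 2 := by omega
  have zi := z1_int (p := p) p3
  have hneg : ((-1:R3)^h) = 1 := Even.neg_one_pow ⟨h/2, by omega⟩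
  have hnn : ((-1:R3)^(h+p)) = -1 := Odd.neg_one_pow ⟨(h+p)/2, by omega⟩
  have H1 := symA h2 hh z1 zi
  rw [hneg, z1_c, ← Sx_cj] at H1
  have K0 := (K2_N1 (p := p) p3 hh).int
  have H3 := blk p3 hh K0 (fun _ => 1) (fun _ => Dv.one) z1 zi
  simp only [one_mul] at H3
  have hb := blkS (h := h) z1
  simp only [one_mul] at hb
  rw [hb, revS] at H3
  have H2 : Sx (leg (h+p)) (h+p+1) z1 = (-1)^(h+p) * Sx (leg (h+p)) (h+p+1) (1-z1) := leg0 AA3 (h+p) z1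
  rw [hnn, z1_c, ← Sx_cj] at H2
  have H2' : (Sx (leg (h+p)) (h+p+1) z1).re = 0 := by
    have := congrArg QuadraticAlgebra.re H2
    rw [neg_one_mul, QuadraticAlgebra.re_neg, cj_re] at this
    linarith
  have him : Dv p 2 (Sx Qd.tt (h+1) z1).im := by
    refine Dv_div2 p3 (Dv_eq ?_ H1.2)
    simp only [QuadraticAlgebra.im_sub, QuadraticAlgebra.im_mul, QuadraticAlgebra.re_one, QuadraticAlgebra.im_one, cj_re, cj_im]
    ring
  refine ⟨him, ?_⟩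
  have pint := (zi.pow p).2
  have e3 : (3:R3) = AA3 3 := (map_ofNat AA3 3).symm
  have e2 : (2:R3) = AA3 2 := (map_ofNat AA3 2).symm
  rw [e3, e2] at H3
  have c9 : Dv p 0 (9:ℚ) := by have := Dv.nat (p := p) 9; push_cast at this; exact this
  refine Dv_eq ?_ ((H3.1.add (((him.mul0 pint).mul0 K0).mul0 c9)).neg)
  simp only [QuadraticAlgebra.im_sub, QuadraticAlgebra.re_sub, QuadraticAlgebra.im_mul, QuadraticAlgebra.re_mul, A3_re, A3_im, H2']
  ring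

theorem val_z1_even (p3 : 3 < p) {i : ℕ} (hi : p = 6*i+1) (i1 : 1 ≤ i) (hev : i % 2 = 0) {j : ℕ} (hj : 3*i = 2*j)
    (l f x2 x3 : ℚ) (hl : l = ((legendreSym p 2 : ℤ) : ℚ)) (hf : f = CC i) (hx2 : x2 = Hs 1 (2*i)) (hx3 : x3 = Hs 1 (3*i)) :
    N1 p (Sx Qd.tt (3*i+1) z1).re (3^j*f) (3^j*f*(2/3*x2 - 1/3*x3)) := by
  obtain ⟨v, nU, nV, nX, nY, nR, nI⟩ := even_data p3 hi i1 hev hj l f x2 x3 hl hf hx2 hx3
  have hh : p = 2*(3*i)+1 := by omega
  have h2 : p ≠ 2 := by omega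
  obtain ⟨hS0, hS1⟩ := eqS_even (p := p) p3 hh (by omega)
  have zi := z1_int (p := p) p3
  have nK := K2_N1 (p := p) p3 hh
  have Ltt := tth_LR (p := p) hh p3
  have L4 := quarter_LR (p := p) hh p3
  rw [← hx3] at nK Ltt L4
  obtain ⟨hlv, -⟩ := two_h (p := p) p3 hh
  have hl' : l = 1 ∨ l = -1 := by rcases hlv with h | h <;> rw [hl, h] <;> norm_num
  have th := half_int' (p := p) p3
  set α := (Sx Qd.tt (3*i+1) Qd.x1).re with hα
  set β := (Sx Qd.tt (3*i+1) Qd.x1).im with hβ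
  set s := (Sx Qd.tt (3*i+1) z1).re with hs
  set K := leg (3*i+p) p with hK
  set t := Qd.tt (3*i) with ht
  set U := (eE^(3*i)).re with hU
  set V := (eE^(3*i)).im with hV
  set X := (eE^p).re with hX
  set Y := (eE^p).im with hY
  set κ := (1/4:ℚ)^(3*i) with hκ
  have nκ : N1 p κ 1 (x3/2) := (N1.ofLR L4).congr rfl rfl (by ring)
  have nt : N1 p (1/t) 1 x3 := (N1.unit_one Ltt).congr rfl rfl (by ring)
  have nq : N1 p (1/4:ℚ) (1/4) 0 := N1.const (Dv_eq (by norm_num) (th.mul0 th))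
  have eκp : (1/4:ℚ)^p = 1/4 * (κ*κ) := by rw [hκ, ← pow_add]; conv_lhs => rw [hh]; rw [pow_succ]
                                           rw [show 2*(3*i) = 3*i+3*i by ring]; ring
  have nκp : N1 p ((1/4:ℚ)^p) (1/4) (x3/4) := (nq.mul (nκ.mul nκ)).congr eκp.symm (by ring) (by ring)
  have eP : z1^p = AA3 ((1/4)^p) * eE^p := z1_pow p
  have eH : z1^(3*i) = AA3 κ * eE^(3*i) := z1_pow (3*i)
  have nD : N1 p (-6*(1 + 3*K*(z1^p).re)) 12 (54*x3+54*l*v) := by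
    have := (N1.intc (p := p) (-6)).mul ((N1.intc 1).add (((N1.intc 3).mul nK).mul (nκp.mul nX)))
    refine this.congr ?_ ?_ ?_
    · rw [eP]; simp only [QuadraticAlgebra.re_mul, A3_re, A3_im]; push_cast; ring
    · push_cast; ring
    · push_cast; ring
  have n1 := (N1.intc (p := p) (-12)).mul (nK.mul (((nκp.mul nt).mul nκ).mul ((((nX.mul nU).add (((N1.intc 3).mul nY).mul nV)).mul nR).sub ((N1.intc 3).mul (((nX.mul nV).add (nY.mul nU)).mul nI)))))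
  have n2 : N1 p (-6*(1 + 3*K*(z1^p).re) * s) (12*(3^j*f)) (12*(3^j*f*(2/3*x2 - 1/3*x3)) + (54*x3+54*l*v)*(3^j*f)) := by
    refine (n1.congr rfl ?_ ?_).cong ?_
    · push_cast; rcases hl' with h | h <;> rw [h] <;> ring
    · push_cast; rcases hl' with h | h <;> rw [h] <;> ring
    · refine Dv_eq ?_ (hS1.mul0 (Dv.int (p := p) (-6)))
      rw [eP, eH]
      simp only [QuadraticAlgebra.re_mul, QuadraticAlgebra.im_mul, A3_re, A3_im, cj_re, cj_im]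
      push_cast
      ring
  exact (nD.solve12 p3 (Sx_dr _ _ _ _ zi fun k _ => tt_int h2 k : Dr p 0 (Sx Qd.tt (3*i+1) z1)).1 n2).congr rfl (by ring) (by ring)

theorem ii_pow_even (j : ℕ) : (-ii)^(2*j) = B12 (AA3 ((-1)^j)) := by
  have h : (-ii)^2 = B12 (AA3 (-1)) := by
    rw [neg_sq, pow_two, f7]; simp
  rw [pow_mul, h, ← map_pow, ← map_pow]

theorem val_zz_even (p3 : 3 < p) {i : ℕ} (hi : p = 6*i+1) (i1 : 1 ≤ i) (hev : i % 2 = 0) {j : ℕ} (hj : 3*i = 2*j)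
    (l f x2 x3 : ℚ) (hl : l = ((legendreSym p 2 : ℤ) : ℚ)) (hf : f = CC i) (hx2 : x2 = Hs 1 (2*i)) (hx3 : x3 = Hs 1 (3*i)) :
    N1 p (Sg A12 Qd.tt (3*i+1) zz).re.re ((-1)^j*(3^j*f)) ((-1)^j*(3^j*f*(2/3*x2 - 1/3*x3))) := by
  obtain ⟨v, nU, nV, nX, nY, nR, nI⟩ := even_data p3 hi i1 hev hj l f x2 x3 hl hf hx2 hx3
  have hh : p = 2*(3*i)+1 := by omega
  obtain ⟨hlv, -⟩ := two_h (p := p) p3 hh
  have hl' : l = 1 ∨ l = -1 := by rcases hlv with h | h <;> rw [hl, h] <;> norm_num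
  have s12 := S12 (p := p) p3 hh
  have mc := M_cong (p := p) p3 hh
  have zint := (eE_int (p := p)).pow (3*i)
  have hii : (-ii)^(3*i) = B12 (AA3 ((-1)^j)) := by rw [hj]; exact ii_pow_even j
  set M := Sx (dd (3*i)) (3*i+1) (cj Qd.x1) with hMd
  set Mv := AA3 (1/2) * (cj (Sx Qd.tt (3*i+1) Qd.x1) + cj ((1-Qd.x1)^(3*i) * cj (Sx Qd.tt (3*i+1) Qd.x1))) with hMv
  have m1 : Dr p 2 (eE^(3*i) * M - eE^(3*i) * Mv) := Dr_eq (by ring) (mc.mul0 zint)
  have hpos : ((-1:R3)^(3*i)) = 1 := Even.neg_one_pow ⟨j, by omega⟩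
  have hZ := cancel_e (3*i)
  have hZL : eE^(3*i) * cj ((1-Qd.x1)^(3*i)) = cj (eE^(3*i)) := by
    rw [L_pow, hpos, one_mul, map_pow]
    linear_combination (cj (eE^(3*i))) * hZ
  have e1 : eE^(3*i) * Mv = AA3 (1/2) * (eE^(3*i) * cj (Sx Qd.tt (3*i+1) Qd.x1) + cj (eE^(3*i)) * Sx Qd.tt (3*i+1) Qd.x1) := by
    rw [hMv, map_mul cj, cjcj]
    linear_combination (AA3 (1/2) * Sx Qd.tt (3*i+1) Qd.x1) * hZL
  set α := (Sx Qd.tt (3*i+1) Qd.x1).re with hα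
  set β := (Sx Qd.tt (3*i+1) Qd.x1).im with hβ
  set U := (eE^(3*i)).re with hU
  set V := (eE^(3*i)).im with hV
  have e2 : (eE^(3*i) * Mv).re = U*α - 3*(V*β) := by
    rw [e1]
    simp only [QuadraticAlgebra.re_add, QuadraticAlgebra.re_mul, QuadraticAlgebra.im_add, QuadraticAlgebra.im_mul, A3_re, A3_im, cj_re, cj_im]
    ring
  rw [hii] at s12
  have a := s12.1.1
  have e : (Sg A12 Qd.tt (3*i+1) zz - B12 (AA3 ((-1)^j)) * B12 (eE^(3*i) * M)).re.re = (Sg A12 Qd.tt (3*i+1) zz).re.re - (-1)^j * (eE^(3*i) * M).re := by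
    generalize eE^(3*i) * M = q
    generalize ((-1:ℚ)^j) = ε
    simp only [QuadraticAlgebra.re_sub, QuadraticAlgebra.re_mul, B_re, B_im]
    simp [QuadraticAlgebra.re_mul, A3_re, A3_im]
  rw [e] at a
  have s0 : Dv p 0 ((-1:ℚ)^j) := by
    have := Dv.int (p := p) ((-1)^j)
    push_cast at this; exact this
  have b := m1.1.mul0 s0
  rw [QuadraticAlgebra.re_sub, e2] at b
  have n := (N1.const s0).mul ((nU.mul nR).sub ((N1.intc 3).mul (nV.mul nI)))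
  refine (n.congr (a' := (-1)^j*(3^j*f)) (b' := (-1)^j*(3^j*f*(2/3*x2 - 1/3*x3))) rfl ?_ ?_).cong ?_
  · push_cast; rcases hl' with h | h <;> rw [h] <;> ring
  · push_cast; rcases hl' with h | h <;> rw [h] <;> ring
  · refine Dv_eq ?_ (a.add b)
    push_cast; ring

/-- `leg (3i)` sums equal `tt` sums modulo `p²` -/
theorem leg_tt_zz (p3 : 3 < p) {h : ℕ} (hh : p = 2*h+1) : Dv p 2 ((Sg A12 (leg h) (h+1) zz).re.re - (Sg A12 Qd.tt (h+1) zz).re.re) := by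
  have a1 : Dq p 2 (Sg A12 (fun k => leg h k - Qd.tt k) (h+1) zz) := Sg_dq _ _ _ _ (zz_int p3) fun k hk => leg_h (by omega) hh (by omega)
  rw [← Sg_sub] at a1
  exact a1.1.1

theorem leg_tt_z1 (p3 : 3 < p) {h : ℕ} (hh : p = 2*h+1) : Dv p 2 ((Sx (leg h) (h+1) z1).re - (Sx Qd.tt (h+1) z1).re) := by
  have a1 : Dr p 2 (Sx (fun k => leg h k - Qd.tt k) (h+1) z1) := Sx_dr _ _ _ _ (z1_int p3) fun k hk => leg_h (by omega) hh (by omega)
  rw [← Sx_sub] at a1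
  exact a1.1

end

end

end Pool.Agent.N926.Qf
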