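import Pool.Agent.N926.Qf.D

/-! values for `p ≡ 7 (mod 12)` -/

set_option autoImplicit false
set_option linter.unusedVariables false
set_option linter.unusedSectionVars false

namespace Pool.Agent.N926.Qf

open Finset Pool.Agent.N926.Sup2 Pool.Agent.N926.Sup Pool.Agent.N926.F54 Pool.Agent.N926.F37 Pool.Agent.N926.Tri Pool.Agent.N926.Fib Pool.Agent.N926.Qd Pool.Agent.N926.Qe

noncomputable section

section
variable {p : ℕ} [hp : Fact p.Prime]

/-- the degree `h+p` Legendre polynomial modulo `p²` in `R12` -/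
theorem blk12 (p3 : 3 < p) {h : ℕ} (hh : p = 2*h+1) (hK : Dv p 0 (leg (h+p) p)) (x : R12) (hx : Dq p 0 x) :
    Dq p 2 (Sg A12 (leg (h+p)) (h+p+1) x - Sg A12 Qd.tt (h+1) x -
      A12 (leg (h+p) p) * x^p * (3 * Sg A12 Qd.tt (h+1) x - 2 * (A12 (1/Qd.tt h) * Sg A12 (fun k => Qd.tt (h-k)) (h+1) x))) := by
  have e1 : Sg A12 (leg (h+p)) (h+p+1) x = Sg A12 (leg (h+p)) (h+1) x +
      ∑ i ∈ range h, A12 (leg (h+p) (h+1+i)) * x^(h+1+i) +
      ∑ i ∈ range (h+1), A12 (leg (h+p) (p+i)) * x^(p+i) := by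
    unfold Sg
    have hr : range (h+p+1) = range (p+(h+1)) := by congr 1; ring
    have hr2 : range p = range ((h+1)+h) := by congr 1; omega
    rw [hr, sum_range_add, hr2, sum_range_add]
  have e2 : A12 (leg (h+p) p) * x^p * (3 * Sg A12 Qd.tt (h+1) x - 2 * (A12 (1/Qd.tt h) * Sg A12 (fun k => Qd.tt (h-k)) (h+1) x)) =
      ∑ i ∈ range (h+1), A12 (leg (h+p) p * (3 * Qd.tt i - 2 * (1/Qd.tt h * Qd.tt (h-i)))) * x^(p+i) := by
    unfold Sg
    have a2 : (2:R12) = A12 2 := (map_ofNat A12 2).symm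
    have a3 : (3:R12) = A12 3 := (map_ofNat A12 3).symm
    rw [a2, a3, mul_sum, mul_sum, mul_sum, ← sum_sub_distrib, mul_sum]
    refine sum_congr rfl fun i _ => ?_
    rw [pow_add, map_mul, map_sub, map_mul, map_mul, map_mul]
    ring
  have h1 : Dq p 2 (Sg A12 (fun n => leg (h+p) n - Qd.tt n) (h+1) x) :=
    Sg_dq _ _ _ _ hx fun k hk => leg_low p3 hh (show k ≤ h by omega)
  rw [← Sg_sub] at h1
  have h2 : Dq p 2 (∑ i ∈ range h, A12 (leg (h+p) (h+1+i)) * x^(h+1+i)) := Dq.sum _ _ fun i hi => by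
    rw [mem_range] at hi
    exact (Dq.A (leg_mid p3 hh (show h < h+1+i by omega) (show h+1+i < p by omega))).mul0 (hx.pow _)
  have h3 : Dq p 2 (∑ i ∈ range (h+1), A12 (leg (h+p) (p+i) - leg (h+p) p * (3 * Qd.tt i - 2 * (1/Qd.tt h * Qd.tt (h-i)))) * x^(p+i)) := Dq.sum _ _ fun i hi => by
    rw [mem_range] at hi
    exact (Dq.A (leg_blk p3 hh (show i ≤ h by omega) hK)).mul0 (hx.pow _)
  have e4 : ∑ i ∈ range (h+1), A12 (leg (h+p) (p+i) - leg (h+p) p * (3 * Qd.tt i - 2 * (1/Qd.tt h * Qd.tt (h-i)))) * x^(p+i) =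
      ∑ i ∈ range (h+1), A12 (leg (h+p) (p+i)) * x^(p+i) - ∑ i ∈ range (h+1), A12 (leg (h+p) p * (3 * Qd.tt i - 2 * (1/Qd.tt h * Qd.tt (h-i)))) * x^(p+i) := by
    rw [← sum_sub_distrib]
    refine sum_congr rfl fun i _ => ?_
    rw [map_sub]
    ring
  rw [e4] at h3
  refine Dq_eq ?_ ((h1.add h2).add h3)
  rw [e1, e2]
  ring

/-- the value at `zz`, odd case: `3` times the imaginary part of `S(zz)` -/
theorem val_zz_odd (p3 : 3 < p) {i : ℕ} (hi : p = 6*i+1) (i1 : 1 ≤ i) (hodd : i % 2 = 1) {j : ℕ} (hj : 3*i = 2*j+1) :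
    Dv p 2 ((Sg A12 (leg (3*i+p)) (3*i+p+1) zz).re.re - 3 * (Sg A12 Qd.tt (3*i+1) zz).im.im) := by
  have hh : p = 2*(3*i)+1 := by omega
  have h2 : p ≠ 2 := by omega
  have zi := zz_int (p := p) p3
  have nK := K2_N1 (p := p) p3 hh
  have b := blk12 p3 hh nK.int zz zi
  have hz : zz^(3*i) = -1 := by rw [pow_mul, f14]; exact Odd.neg_one_pow ⟨i/2, by omega⟩
  have hzp : zz^p = zz := by
    conv_lhs => rw [hh, pow_succ, mul_comm 2, pow_mul, hz]
    norm_num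
  have C1 := rev0 A12 zz (cc zz) zz_cc (3*i) Qd.tt
  rw [hz, ← Sg_cc] at C1
  rw [C1, hzp] at b
  -- the real part of `S(zz)` vanishes
  have hsg : (-1:R12)^(3*i) = -1 := Odd.neg_one_pow ⟨j, hj⟩
  have A1 := leg0 A12 (3*i) zz
  rw [hsg, f8, ← Sg_cc] at A1
  have A2 : (Sg A12 (leg (3*i)) (3*i+1) zz).re.re = 0 := by
    have h' := congrArg (fun z : R12 => z.re.re) A1
    simp only [neg_one_mul, QuadraticAlgebra.re_neg, cc_re] at h'
    linarith
  have a1 : Dq p 2 (Sg A12 (fun k => leg (3*i) k - Qd.tt k) (3*i+1) zz) := Sg_dq _ _ _ _ zi fun k hk => leg_h h2 hh (by omega)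
  rw [← Sg_sub] at a1
  have S1 : Dv p 2 (Sg A12 Qd.tt (3*i+1) zz).re.re := by
    refine Dv_eq ?_ a1.1.1.neg
    rw [QuadraticAlgebra.re_sub, QuadraticAlgebra.re_sub, A2]; ring
  have Sint : Dq p 0 (Sg A12 Qd.tt (3*i+1) zz) := Sg_dq _ _ _ _ zi fun k _ => tt_int h2 k
  have T := tth_LR (p := p) hh p3
  have nt := N1.unit_one T
  set S := Sg A12 Qd.tt (3*i+1) zz with hS
  set K := leg (3*i+p) p with hK
  set τ := 1/Qd.tt (3*i) with hτ
  have c := b.1.1
  have e : (Sg A12 (leg (3*i+p)) (3*i+p+1) zz - S - A12 K * zz * (3 * S - 2 * (A12 τ * (-1 * cc S)))).re.re =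
      (Sg A12 (leg (3*i+p)) (3*i+p+1) zz).re.re - S.re.re - K * (1/2*((3+2*τ)*S.re.re) - 3/2*((3-2*τ)*S.im.im)) := by
    have a2 : (2:R12) = A12 2 := (map_ofNat A12 2).symm
    have a3 : (3:R12) = A12 3 := (map_ofNat A12 3).symm
    have z1' : zz.re = (⟨1/2,0⟩ : R3) := rfl
    have z2' : zz.im = (⟨0,1/2⟩ : R3) := rfl
    rw [a2, a3]
    simp only [neg_one_mul, QuadraticAlgebra.re_sub, QuadraticAlgebra.im_sub, QuadraticAlgebra.re_mul, QuadraticAlgebra.im_mul, QuadraticAlgebra.re_neg, QuadraticAlgebra.im_neg, A12_re, A12_im, cc_re, cc_im, z1', z2']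
    simp [QuadraticAlgebra.re_mul, QuadraticAlgebra.im_mul, A3_re, A3_im]
    ring
  rw [e] at c
  have th := half_int' (p := p) p3
  have c3 : Dv p 0 (3:ℚ) := by have := Dv.nat (p := p) 3; push_cast at this; exact this
  have two0 : Dv p 0 (2:ℚ) := by have := Dv.nat (p := p) 2; push_cast at this; exact this
  have k32 : Dv p 2 (K*(3-2*τ) - (-2)) := by
    have n := nK.mul ((N1.intc (p := p) 3).sub ((N1.intc 2).mul nt))
    have := (n.congr (a' := -2) (b' := 0) rfl (by push_cast; ring) (by push_cast; ring)).1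
    refine Dv_eq ?_ this
    push_cast; ring
  have r1 := k32.mul0 (((c3.mul0 th).mul0 Sint.2.2))
  have K0 := nK.int
  have τ0 : Dv p 0 τ := nt.int
  have r2 := S1.mul0 (Dv.one.add ((K0.mul0 th).mul0 (c3.add (two0.mul0 τ0))))
  refine Dv_eq ?_ ((c.add r2).sub r1)
  ring

/-- the value at `z1`, odd case -/
theorem val_z1_odd (p3 : 3 < p) {i : ℕ} (hi : p = 6*i+1) (i1 : 1 ≤ i) (hodd : i % 2 = 1) {j : ℕ} (hj : 3*i = 2*j+1)
    (l c f x2 x3 : ℚ) (hl : l = ((legendreSym p 2 : ℤ) : ℚ)) (hc : c = l*3^j) (hf : f = CC i) (hx2 : x2 = Hs 1 (2*i)) (hx3 : x3 = Hs 1 (3*i)) :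
    N1 p (Sx (leg (3*i+p)) (3*i+p+1) z1).re (3/2*(l*c*f)) (3/2*(l*c*f*(2/3*x2 - 1/3*x3))) := by
  have nS := (main_z1 p3 hi i1 hodd hj l c f x2 x3 hl hc hf hx2 hx3).1
  have hh : p = 2*(3*i)+1 := by omega
  have h2 : p ≠ 2 := by omega
  obtain ⟨nI, nR, -, -⟩ := first_odd p3 hi i1 hodd hj
  have D := mkData p3 hi i1
  have hs1 : ((-1:ℚ)^i) = -1 := Odd.neg_one_pow ⟨i/2, by omega⟩
  have hth := D.th
  rw [hs1] at hth
  have h31 : Dv p 1 ((3:ℚ)^(3*i) + 1) := by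
    refine Dv_eq ?_ hth.one1
    ring
  obtain ⟨w, w0, hVe, hUe⟩ := UV_odd (p := p) p3 hh h31
  obtain ⟨hlv, -⟩ := two_h (p := p) p3 hh
  obtain ⟨eX, eY⟩ := ePow (p := p) (3*i) hh
  have zi := z1_int (p := p) p3
  obtain ⟨hS0, -⟩ := eqS (p := p) p3 hh (by omega)
  have nK := K2_N1 (p := p) p3 hh
  have Ltt := tth_LR (p := p) hh p3
  have L4 := quarter_LR (p := p) hh p3
  have H3 := blk p3 hh nK.int (fun _ => 1) (fun _ => Dv.one) z1 zi
  simp only [one_mul] at H3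
  have hb := blkS (h := 3*i) z1
  simp only [one_mul] at hb
  rw [hb, revS] at H3
  rw [← hl] at nI nR hVe hUe
  rw [← hc] at nI nR
  rw [← hf] at nI nR
  rw [← hx2, ← hx3] at nI nR
  rw [← hx3] at nK Ltt L4
  have hl' : l = 1 ∨ l = -1 := by rcases hlv with h | h <;> rw [hl, h] <;> norm_num
  have l0 : Dv p 0 l := by rw [hl]; exact Dv.int _
  have c2 : Dv p 0 (2:ℚ) := by have := Dv.nat (p := p) 2; push_cast at this; exact this
  have c3 : Dv p 0 (3:ℚ) := by have := Dv.nat (p := p) 3; push_cast at this; exact this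
  have th := half_int' (p := p) p3
  set α := (Sx Qd.tt (3*i+1) Qd.x1).re with hα
  set β := (Sx Qd.tt (3*i+1) Qd.x1).im with hβ
  set s := (Sx Qd.tt (3*i+1) z1).im with hs
  set s0 := (Sx Qd.tt (3*i+1) z1).re with hs0
  set K := leg (3*i+p) p with hK
  set t := Qd.tt (3*i) with ht
  set U := (eE^(3*i)).re with hU
  set V := (eE^(3*i)).im with hV
  set X := (eE^p).re with hX
  set Y := (eE^p).im with hY
  set κ := (1/4:ℚ)^(3*i) with hκ
  have nU : N1 p U (-2*l) (-3*l*w) := ⟨hUe, Dv_eq (by ring) (c2.mul0 l0).neg, Dv_eq (by ring) ((c3.mul0 l0).mul0 w0).neg⟩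
  have nV : N1 p V l (2*l*w) := ⟨Dv_eq (by rw [hVe]; ring) (Dv.zero (p := p) 2), l0, (c2.mul0 l0).mul0 w0⟩
  have nX : N1 p X 2 (6*w) := by
    have := ((N1.intc (p := p) 2).mul ((nU.mul nU).add ((N1.intc 3).mul (nV.mul nV)))).add ((N1.intc 6).mul (nU.mul nV))
    refine this.congr ?_ ?_ ?_
    · rw [eX]; push_cast; ring
    · push_cast; rcases hl' with h | h <;> rw [h] <;> ring
    · push_cast; rcases hl' with h | h <;> rw [h] <;> ring
  have nY : N1 p Y (-1) (-4*w) := by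
    have := ((nU.mul nU).add ((N1.intc 3).mul (nV.mul nV))).add ((N1.intc 4).mul (nU.mul nV))
    refine this.congr ?_ ?_ ?_
    · rw [eY]; push_cast; ring
    · push_cast; rcases hl' with h | h <;> rw [h] <;> ring
    · push_cast; rcases hl' with h | h <;> rw [h] <;> ring
  have nκ : N1 p κ 1 (x3/2) := (N1.ofLR L4).congr rfl rfl (by ring)
  have nt : N1 p (1/t) 1 x3 := (N1.unit_one Ltt).congr rfl rfl (by ring)
  have nq : N1 p (1/4:ℚ) (1/4) 0 := N1.const (Dv_eq (by norm_num) (th.mul0 th))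
  have eκp : (1/4:ℚ)^p = 1/4 * (κ*κ) := by rw [hκ, ← pow_add]; conv_lhs => rw [hh]; rw [pow_succ]
                                           rw [show 2*(3*i) = 3*i+3*i by ring]; ring
  have nκp : N1 p ((1/4:ℚ)^p) (1/4) (x3/4) := (nq.mul (nκ.mul nκ)).congr eκp.symm (by ring) (by ring)
  have eP : z1^p = AA3 ((1/4)^p) * eE^p := z1_pow p
  have eH : z1^(3*i) = AA3 κ * eE^(3*i) := z1_pow (3*i)
  have nS0 : N1 p s0 0 0 := ⟨Dv_eq (by ring) hS0, Dv.zero _, Dv.zero _⟩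
  have n2c := N1.intc (p := p) 2
  have n3c := N1.intc (p := p) 3
  have n9c := N1.intc (p := p) 9
  have nA := (nX.mul nU).add ((n3c.mul nY).mul nV)
  have nB := (nX.mul nV).add (nY.mul nU)
  have n1 := nS0.add ((nK.mul nκp).mul (((n3c.mul (nX.mul nS0)).add (n9c.mul (nY.mul nS))).sub (((n2c.mul nt).mul nκ).mul ((nA.mul nR).sub ((n3c.mul nB).mul nI)))))
  refine (n1.congr (a' := 3/2*(l*c*f)) (b' := 3/2*(l*c*f*(2/3*x2 - 1/3*x3))) rfl ?_ ?_).cong ?_
  · push_cast; rcases hl' with h | h <;> rw [h] <;> ring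
  · push_cast; rcases hl' with h | h <;> rw [h] <;> ring
  · have e3 : (3:R3) = AA3 3 := (map_ofNat AA3 3).symm
    have e2 : (2:R3) = AA3 2 := (map_ofNat AA3 2).symm
    rw [e3, e2, eP, eH] at H3
    refine Dv_eq ?_ H3.1
    simp only [QuadraticAlgebra.re_sub, QuadraticAlgebra.im_sub, QuadraticAlgebra.re_mul, QuadraticAlgebra.im_mul, A3_re, A3_im, cj_re, cj_im]
    push_cast
    ring

end

end

end Pool.Agent.N926.Qf
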