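import Pool.Agent.N926.Qd.Sg

/-! signs for `p ≡ 1 (mod 12)` -/

set_option autoImplicit false
set_option linter.unusedVariables false
set_option linter.unusedSectionVars false

namespace Pool.Agent.N926.Qf

open NumberTheorySymbols Pool.Agent.N926.Qd

section
variable {p : ℕ} [hp : Fact p.Prime]

theorem rec_m (h4 : p % 4 = 1) {m : ℕ} (hm : Odd m) : J((m:ℤ) | p) = J((p:ℤ) | m) :=
  (jacobiSym.quadratic_reciprocity_one_mod_four h4 hm).symm

theorem my_one (h4 : p % 4 = 1) {x y : ℤ} (h : x^2 + 3*y^2 = p) {m : ℕ} (hm : Odd m) (hmy : (m:ℤ) ∣ y) : J((m:ℤ) | p) = 1 := by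
  have hc := cop_xy hp.out h
  rw [rec_m h4 hm]
  have h1 : J((p:ℤ) | m) = J(x^2 | m) := by
    refine jacobiSym.mod_left' ?_
    rw [← h]
    obtain ⟨c, hc⟩ := hmy
    have : x^2 + 3*y^2 = x^2 + m * (3*c*y) := by
      have : y^2 = m*c*y := by rw [← hc]; ring
      rw [this]; ring
    rw [this]
    simp
  rw [h1]
  exact jacobiSym.sq_one' (gcd_one_of_cop hc hmy)

theorem mx_three (h4 : p % 4 = 1) {x y : ℤ} (h : x^2 + 3*y^2 = p) {m : ℕ} (hm : Odd m) (hmx : (m:ℤ) ∣ x) : J((m:ℤ) | p) = J(3 | m) := by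
  have hc := (cop_xy hp.out h).symm
  have hg := gcd_one_of_cop hc hmx
  rw [rec_m h4 hm]
  have h1 : J((p:ℤ) | m) = J(3*y^2 | m) := by
    refine jacobiSym.mod_left' ?_
    rw [← h]
    obtain ⟨c, hc⟩ := hmx
    have : x^2 + 3*y^2 = 3*y^2 + m * (c*x) := by rw [hc]; ring
    rw [this]
    simp
  rw [h1, jacobiSym.mul_left, jacobiSym.sq_one' hg, mul_one]

theorem neg_one_one (h4 : p % 4 = 1) : J(-1 | p) = 1 := by
  have hpodd : Odd p := by rw [Nat.odd_iff]; omega
  rw [jacobiSym.at_neg_one hpodd, ZMod.χ₄_nat_one_mod_four h4]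

/-- the sign of `x` -/
theorem leg_x (h4 : p % 4 = 1) {x y : ℤ} (h : x^2 + 3*y^2 = p) (hx3 : x % 3 = 1) (hx2 : x % 2 = 1) :
    legendreSym p x = if x % 4 = 1 then 1 else -1 := by
  rw [jacobiSym.legendreSym.to_jacobiSym]
  rcases le_or_gt 0 x with h0 | h0
  · obtain ⟨m, rfl⟩ := Int.eq_ofNat_of_zero_le h0
    have hm : Odd m := by rw [Nat.odd_iff]; omega
    rw [mx_three h4 h hm (dvd_refl _)]
    have e3 : J((m:ℤ) | 3) = 1 := by
      have : J((m:ℤ) | 3) = J(1 | 3) := jacobiSym.mod_left' (by omega)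
      rw [this, jacobiSym.one_left]
    have hm4 : m % 4 = 1 ∨ m % 4 = 3 := by
      have := Nat.odd_iff.1 hm
      omega
    rcases hm4 with hm4 | hm4
    · have := jacobiSym.quadratic_reciprocity_one_mod_four hm4 (b := 3) (by decide)
      rw [if_pos (by omega)]
      rw [e3] at this
      exact_mod_cast this.symm
    · have := jacobiSym.quadratic_reciprocity_three_mod_four hm4 (b := 3) (by norm_num)
      rw [if_neg (by omega)]
      rw [e3] at this
      have h2 : J(((3:ℕ):ℤ) | m) = -1 := by linarith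
      exact_mod_cast h2
  · obtain ⟨m, hm'⟩ := Int.eq_ofNat_of_zero_le (show 0 ≤ -x by omega)
    have hxm : x = -(m:ℤ) := by omega
    have hm : Odd m := by rw [Nat.odd_iff]; omega
    have hmx : (m:ℤ) ∣ x := by rw [hxm]; exact (dvd_neg).2 (dvd_refl _)
    have hJ := mx_three h4 h hm hmx
    have e1 : J(x | p) = J((m:ℤ) | p) := by
      rw [hxm, neg_eq_neg_one_mul, jacobiSym.mul_left, neg_one_one h4, one_mul]
    rw [e1, hJ]
    have e3 : J((m:ℤ) | 3) = -1 := by
      have : J((m:ℤ) | 3) = J(2 | 3) := jacobiSym.mod_left' (by omega)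
      rw [this, J23]
    have hm4 : m % 4 = 1 ∨ m % 4 = 3 := by
      have := Nat.odd_iff.1 hm
      omega
    rcases hm4 with hm4 | hm4
    · have := jacobiSym.quadratic_reciprocity_one_mod_four hm4 (b := 3) (by decide)
      rw [if_neg (by omega)]
      rw [e3] at this
      exact_mod_cast this.symm
    · have := jacobiSym.quadratic_reciprocity_three_mod_four hm4 (b := 3) (by norm_num)
      rw [if_pos (by omega)]
      rw [e3] at this
      have h2 : J(((3:ℕ):ℤ) | m) = 1 := by linarith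
      exact_mod_cast h2

/-- `(y/p) = (2/p)` -/
theorem leg_y (h4 : p % 4 = 1) {x y : ℤ} (h : x^2 + 3*y^2 = p) (hx2 : x % 2 = 1) (y0 : y ≠ 0) : legendreSym p y = legendreSym p 2 := by
  have hpodd : Odd p := by rw [Nat.odd_iff]; omega
  have hy0 : y.natAbs ≠ 0 := by omega
  obtain ⟨k, m, hm, hkm⟩ := Nat.exists_eq_two_pow_mul_odd hy0
  have hmy : (m:ℤ) ∣ y := by
    rw [← Int.dvd_natAbs, hkm]
    push_cast
    exact Dvd.intro_left _ rfl
  have hJ := my_one h4 h hm hmy
  obtain ⟨s, hs, hys⟩ : ∃ s : ℤ, (s = 1 ∨ s = -1) ∧ y = s * (2^k * m) := by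
    rcases le_or_gt 0 y with h0 | h0
    · refine ⟨1, Or.inl rfl, ?_⟩
      have : y = (y.natAbs : ℤ) := by omega
      rw [this, hkm]; push_cast; ring
    · refine ⟨-1, Or.inr rfl, ?_⟩
      have : y = -(y.natAbs : ℤ) := by omega
      rw [this, hkm]; push_cast; ring
  have hs1 : J(s | p) = 1 := by
    rcases hs with hs | hs
    · rw [hs, jacobiSym.one_left]
    · rw [hs, neg_one_one h4]
  have e3 : J(y | p) = legendreSym p 2^k := by
    rw [hys, jacobiSym.mul_left, jacobiSym.mul_left, jacobiSym.pow_left, hs1, hJ, jacobiSym.legendreSym.to_jacobiSym]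
    ring
  rw [jacobiSym.legendreSym.to_jacobiSym p y, e3]
  have hl : legendreSym p 2 = 1 ∨ legendreSym p 2 = -1 := by
    refine legendreSym.eq_one_or_neg_one p ?_
    intro h0
    rw [ZMod.intCast_zmod_eq_zero_iff_dvd] at h0
    have h1 : p ∣ 2 := by exact_mod_cast h0
    have := Nat.le_of_dvd (by norm_num) h1
    have := hp.out.two_le
    omega
  obtain ⟨a, ha⟩ : ∃ a, x = 2*a+1 := ⟨x/2, by omega⟩
  obtain ⟨a', ha'⟩ : ∃ a', a^2 + a = 2*a' := by
    obtain ⟨c, hc⟩ := Int.even_mul_succ_self a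
    exact ⟨c, by linear_combination hc⟩
  have hx8 : x^2 = 8*a' + 1 := by rw [ha]; linear_combination 4*ha'
  have hk : k = 1 ∨ (2 ≤ k ∧ p % 8 = 1) := by
    rcases Nat.lt_or_ge k 2 with hk | hk
    · interval_cases k
      · exfalso
        obtain ⟨b, hb⟩ := hm
        have hy2 : y^2 = 4*((b:ℤ)^2+b) + 1 := by
          have : y^2 = (s^2) * (m:ℤ)^2 := by rw [hys]; ring
          have hs2 : s^2 = 1 := by rcases hs with h | h <;> rw [h] <;> norm_num
          rw [this, hs2, hb]; push_cast; ring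
        omega
      · exact Or.inl rfl
    · right
      refine ⟨hk, ?_⟩
      obtain ⟨k', rfl⟩ := Nat.exists_eq_add_of_le hk
      have hy2 : y^2 = 16*(s*(2^k'*m))^2 := by rw [hys, pow_add]; ring
      generalize (s*(2^k'*(m:ℤ)))^2 = z at hy2
      omega
  rcases hk with rfl | ⟨hk, h8⟩
  · rw [pow_one]
  · have hl1 : legendreSym p 2 = 1 := by
      rw [legendreSym.at_two (by omega), ZMod.χ₈_nat_eq_if_mod_eight]
      have : ¬ p % 2 = 0 := by omega
      simp [this, h8]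
    rw [hl1, one_pow]

theorem leg2_even {j : ℕ} (hj : p = 4*j+1) : legendreSym p 2 = (-1)^j := by
  have hp2 := hp.out.two_le
  have h2 : ¬ p % 2 = 0 := by omega
  rw [legendreSym.at_two (by omega), ZMod.χ₈_nat_eq_if_mod_eight]
  rcases Nat.even_or_odd' j with ⟨a, rfl | rfl⟩
  · have h8 : p % 8 = 1 := by omega
    have e : (-1:ℤ)^(2*a) = 1 := Even.neg_one_pow ⟨a, by omega⟩
    rw [e]; simp [h2, h8]
  · have h8 : p % 8 = 5 := by omega
    have e : (-1:ℤ)^(2*a+1) = -1 := Odd.neg_one_pow ⟨a, by omega⟩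
    rw [e]; simp [h2, h8]

/-- `3^j ≡ (x/p) (mod p)`, `p = 4j+1` -/
theorem three_j {j : ℕ} (hj : p = 4*j+1) {x y : ℤ} (h : x^2 + 3*y^2 = p) (hx2 : x % 2 = 1) (y0 : y ≠ 0) :
    (((3^j - legendreSym p x : ℤ)) : ZMod p) = 0 := by
  have ly := leg_y (by omega) h hx2 y0
  have l2 := leg2_even hj
  have e1 := legendreSym.eq_pow p x
  have e2 := legendreSym.eq_pow p y
  have h2 : p/2 = 2*j := by omega
  rw [h2] at e1 e2
  have hxy : ((x:ZMod p))^2 = -3*(y:ZMod p)^2 := by
    have : ((x^2 + 3*y^2 : ℤ) : ZMod p) = ((p:ℤ) : ZMod p) := by rw [h]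
    push_cast at this
    rw [ZMod.natCast_self] at this
    linear_combination this
  have e3 : ((x:ZMod p))^(2*j) = (-1)^j * 3^j * (y:ZMod p)^(2*j) := by
    rw [pow_mul, hxy, mul_pow, pow_mul, neg_pow]
  rw [e1.symm, e2.symm, ly, l2] at e3
  push_cast at e3 ⊢
  have e4 : ((-1:ZMod p)^j)*(-1)^j = 1 := by rw [← mul_pow]; norm_num
  linear_combination -e3 - (3:ZMod p)^j * e4

end

end Pool.Agent.N926.Qf
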