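import Pool.Agent.N926.Qf.E
import Pool.Agent.N926.Qf.F
import Pool.Agent.N926.Qf.G

/-! the final evaluations -/

set_option autoImplicit false
set_option linter.unusedVariables false
set_option linter.unusedSectionVars false

namespace Pool.Agent.N926.Qf

open Finset Pool.Agent.N926.Sup2 Pool.Agent.N926.Sup Pool.Agent.N926.F54 Pool.Agent.N926.F37 Pool.Agent.N926.Tri Pool.Agent.N926.Fib Pool.Agent.N926.Qd Pool.Agent.N926.Qe

noncomputable section

section
variable {p : ℕ} [hp : Fact p.Prime]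

/-- `ε(x) = 1` for `x ≡ 1 (mod 4)` and `-1` otherwise -/
def eps (x : ℤ) : ℚ := if x % 4 = 1 then 1 else -1

theorem eps_neg {x : ℤ} (h : x % 2 = 1) : eps (-x) = -eps x := by
  unfold eps
  rcases (show x % 4 = 1 ∨ x % 4 = 3 by omega) with h4 | h4
  · rw [if_neg (by omega), if_pos h4]
  · rw [if_pos (by omega), if_neg (by omega)]; norm_num

theorem even_eval1 (p3 : 3 < p) {i : ℕ} (hi : p = 6*i+1) (i1 : 1 ≤ i) (hev : i % 2 = 0) {j : ℕ} (hj : 3*i = 2*j)
    {x y : ℤ} (h : x^2 + 3*y^2 = p) (hx : x % 3 = 1) (hx2 : x % 2 = 1) {z : ℚ}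
    (hz : N1 p z (3^j*CC i) (3^j*CC i*(2/3*Hs 1 (2*i) - 1/3*Hs 1 (3*i)))) :
    Dv p 2 (z - eps x * (2*(x:ℚ) - p/(2*(x:ℚ)))) := by
  have h2 : p ≠ 2 := by omega
  have h3 : p ≠ 3 := by omega
  have D := mkData p3 hi i1
  have hS := S_main h2 h3 hi i1 h hx
  have hs1 : ((-1:ℚ)^i) = 1 := Even.neg_one_pow ⟨i/2, by omega⟩
  have hth := D.th
  rw [hs1] at hth
  have dp := Dv.p1 (p := p)
  have y0 : y ≠ 0 := by
    rintro rfl
    have h5 : x^2 = (p:ℤ) := by linarith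
    have h6 : x.natAbs^2 = p := by
      have := Int.natAbs_pow x 2
      rw [h5] at this
      simpa using this.symm
    exact Nat.Prime.not_prime_pow (le_refl 2) (h6 ▸ hp.out)
  have hlx := leg_x (p := p) (by omega) h hx hx2
  have h3j := three_j (p := p) (j := j) (by omega) h hx2 y0
  have hc := Dv.of_zmod (p := p) h3j
  push_cast at hc
  have he : ((legendreSym p x : ℤ) : ℚ) = eps x := by
    rw [hlx]; unfold eps; split_ifs <;> norm_num
  rw [he] at hc
  set e := eps x with hed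
  have he' : e = 1 ∨ e = -1 := by rw [hed]; unfold eps; split_ifs <;> simp
  have ee : e^2 = 1 := by rcases he' with h | h <;> rw [h] <;> norm_num
  have e0 : Dv p 0 e := by
    rcases he' with h | h
    · rw [h]; exact Dv.one
    · rw [h]; exact Dv.one.neg
  have th := half_int' (p := p) p3
  have t3 := third_int (p := p) p3
  set f := CC i
  set x2 := Hs 1 (2*i)
  set x3 := Hs 1 (3*i)
  have x20 := D.x2i
  -- `3^j` to first order
  have n3 : N1 p ((3:ℚ)^j) e (-(e*x2/6)) := by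
    refine ⟨?_, e0, (Dv_eq (by ring) (((e0.mul0 x20).mul0 th).mul0 t3) : Dv p 0 (e*x2/6)).neg⟩
    have a := (hth.1.sub (hc.mul hc)).mul0 (e0.mul0 th)
    refine Dv_eq ?_ a
    have e3 : (3:ℚ)^(3*i) = (3^j)^2 := by rw [hj, mul_comm, pow_mul]
    rw [e3]
    linear_combination ((3:ℚ)^j - e/2)*ee
  have cf0 := D.ff
  have h1 : Dv p 2 (3^j*(f + p*(f*(x2/2-x3/3))) - e*(f + p*(f*(x2/2-x3/3))) + p*(e*x2/6*f)) := by
    have a1 := n3.1.mul0 cf0
    have r0 := D.SS.2.2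
    have a3 : Dv p 2 ((3^j - e)*(p*(f*(x2/2-x3/3)))) := by
      have := hc.mul (dp.mul0 r0)
      exact this
    refine Dv_eq ?_ (a1.add a3)
    ring
  have hz1 := hz.1
  have hSS := hS.sub D.SS.1
  -- `z ≡ 3^j f (1 + p r)` with `r = (x2/2 - x3/3) + x2/6`
  have h4 : Dv p 2 (p*((3^j - e)*(f*x2/6))) := by
    have := (dp.mul hc).mul0 ((((cf0.mul0 x20).mul0 th).mul0 t3))
    refine Dv_eq ?_ this
    ring
  refine Dv_eq ?_ (((hz1.add h1).add h4).add (hSS.mul0 e0))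
  ring

/-- even case, any sign of `x` -/
theorem even_eval (p3 : 3 < p) {i : ℕ} (hi : p = 6*i+1) (i1 : 1 ≤ i) (hev : i % 2 = 0) {j : ℕ} (hj : 3*i = 2*j)
    {x y : ℤ} (h : x^2 + 3*y^2 = p) (hx2 : x % 2 = 1) {z : ℚ}
    (hz : N1 p z (3^j*CC i) (3^j*CC i*(2/3*Hs 1 (2*i) - 1/3*Hs 1 (3*i)))) :
    Dv p 2 (z - eps x * (2*(x:ℚ) - p/(2*(x:ℚ)))) := by
  have hX : x % 3 = 1 ∨ x % 3 = 2 := by
    have h0 : x % 3 ≠ 0 := by
      intro h0
      obtain ⟨c, hc⟩ : (3:ℤ) ∣ x := Int.dvd_of_emod_eq_zero h0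
      have : (3:ℤ) ∣ p := ⟨3*c^2 + y^2, by rw [← h, hc]; ring⟩
      have h4 : (3:ℕ) ∣ p := by exact_mod_cast this
      omega
    omega
  rcases hX with hX | hX
  · exact even_eval1 p3 hi i1 hev hj h hX hx2 hz
  · have := even_eval1 p3 hi i1 hev hj (x := -x) (y := y) (by rw [← h]; ring) (by omega) (by omega) hz
    refine Dv_eq ?_ this
    rw [eps_neg hx2]
    push_cast
    have x0 : (x:ℚ) ≠ 0 := by
      have : x ≠ 0 := by rintro rfl; norm_num at hx2
      exact_mod_cast this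
    field_simp
    ring

end

end

end Pool.Agent.N926.Qf
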