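import Pool.Agent.N926.Qf.H

/-! the three sums -/

set_option autoImplicit false
set_option linter.unusedVariables false
set_option linter.unusedSectionVars false

namespace Pool.Agent.N926.Qf

open Finset Pool.Agent.N926.Sup2 Pool.Agent.N926.Sup Pool.Agent.N926.F54 Pool.Agent.N926.F37 Pool.Agent.N926.Tri Pool.Agent.N926.Fib Pool.Agent.N926.Qd Pool.Agent.N926.Qe

noncomputable section

section
variable {p : ℕ} [hp : Fact p.Prime]

theorem quarter_int (p3 : 3 < p) : Dv p 0 (1/4:ℚ) := by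
  have th := half_int' (p := p) p3
  exact Dv_eq (by norm_num) (th.mul0 th)

theorem sixteenth_int (p3 : 3 < p) : Dv p 0 (1/16:ℚ) := by
  have th := quarter_int (p := p) p3
  exact Dv_eq (by norm_num) (th.mul0 th)

/-- `p ≡ 1 (mod 12)` -/
theorem all_even (p3 : 3 < p) {i : ℕ} (hi : p = 6*i+1) (i1 : 1 ≤ i) (hev : i % 2 = 0) {j : ℕ} (hj : 3*i = 2*j)
    {x y : ℤ} (h : x^2 + 3*y^2 = p) (hx2 : x % 2 = 1) :
    Dv p 2 (∑ k ∈ range p, gb (-1/4) k^2 * 4^k - (-1)^j * (eps x * (2*(x:ℚ) - p/(2*(x:ℚ))))) ∧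
    Dv p 2 (∑ k ∈ range p, gb (-1/4) k * (2^k * (((2*k).choose k : ℕ) : ℚ)) - (-1)^j * (eps x * (2*(x:ℚ) - p/(2*(x:ℚ))))) ∧
    Dv p 2 (∑ k ∈ range p, gb (-1/4) k^2 * (1/4)^k - eps x * (2*(x:ℚ) - p/(2*(x:ℚ)))) := by
  have hh : p = 2*(3*i)+1 := by omega
  have i4 := quarter_int (p := p) p3
  have i16 := sixteenth_int (p := p) p3
  have th := half_int' (p := p) p3
  have hM : j < p := by omega
  have hc : 4*(j:ℚ)+1 = 1*p := by
    have : p = 4*j+1 := by omega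
    rw [this]; push_cast; ring
  have e2M : 2*j = 3*i := hj.symm
  have v1 := val1 j
  have v3 := val3 j
  rw [e2M] at v1 v3
  have q1 := sq_cong (p := p) j hM hc (by simpa using th) th (s := 1) Dv.one
  have q3 := sq_cong (p := p) j hM hc (by simpa using th) th (s := 1/16) i16
  rw [← v1] at q1
  rw [← v3] at q3
  have l1 := leg_tt_zz (p := p) p3 hh
  have l3 := leg_tt_z1 (p := p) p3 hh
  have n1 := val_zz_even p3 hi i1 hev hj _ _ _ _ rfl rfl rfl rfl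
  have n3 := val_z1_even p3 hi i1 hev hj _ _ _ _ rfl rfl rfl rfl
  have s0 : Dv p 0 ((-1:ℚ)^j) := by
    have := Dv.int (p := p) ((-1)^j)
    push_cast at this; exact this
  have ss : ((-1:ℚ)^j)*(-1)^j = 1 := by rw [← mul_pow]; norm_num
  have ev3 := even_eval p3 hi i1 hev hj h hx2 n3
  have n1' : N1 p ((-1)^j * (Sg A12 Qd.tt (3*i+1) zz).re.re) (3^j*CC i) (3^j*CC i*(2/3*Hs 1 (2*i) - 1/3*Hs 1 (3*i))) := by
    refine ((N1.const s0).mul n1).congr rfl ?_ ?_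
    · linear_combination (3^j*CC i)*ss
    · linear_combination (3^j*CC i*(2/3*Hs 1 (2*i) - 1/3*Hs 1 (3*i)))*ss
  have ev1 := even_eval p3 hi i1 hev hj h hx2 n1'
  set V := eps x * (2*(x:ℚ) - p/(2*(x:ℚ))) with hV
  have r3 : Dv p 2 (∑ k ∈ range p, gb (-1/4) k^2 * (1/4)^k - V) := by
    have e : (4*(1/16):ℚ) = 1/4 := by norm_num
    rw [e] at q3
    refine Dv_eq ?_ ((q3.add l3).add ev3)
    ring
  have r1 : Dv p 2 (∑ k ∈ range p, gb (-1/4) k^2 * 4^k - (-1)^j * V) := by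
    have e : (4*1:ℚ) = 4 := by norm_num
    rw [e] at q1
    refine Dv_eq ?_ ((q1.add l1).add (ev1.mul0 s0))
    linear_combination ((Sg A12 Qd.tt (3*i+1) zz).re.re)*ss
  refine ⟨r1, ?_, r3⟩
  have hl2 := leg2_even (p := p) (j := j) (by omega)
  have hlq : ((-1:ℚ)^j) = ((legendreSym p 2 : ℤ) : ℚ) := by rw [hl2]; push_cast; rfl
  obtain ⟨q, hq, h2h⟩ := two_N1 (p := p) p3 hh hlq
  have hκ : N1 p ((4:ℚ)^j) ((-1)^j) ((-1)^j*(1/2)*q) := by
    refine h2h.congr ?_ rfl (by ring)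
    rw [← e2M, pow_mul]; norm_num
  have R := rel (p := p) j hM hc (by simpa using i4) hq hκ i4
  have two0 : Dv p 0 (2:ℚ) := by have := Dv.nat (p := p) 2; push_cast at this; exact this
  refine Dv_eq ?_ ((R.add (r3.mul0 (s0.mul0 two0))).sub r1)
  ring

/-- `p ≡ 7 (mod 12)`, normalised -/
theorem all_odd1 (p3 : 3 < p) {i : ℕ} (hi : p = 6*i+1) (i1 : 1 ≤ i) (hodd : i % 2 = 1) {j : ℕ} (hj : 3*i = 2*j+1)
    {x y : ℤ} (h : x^2 + 3*y^2 = p) (hx : x % 3 = 1) (hy : y % 4 = 1) :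
    Dv p 2 (∑ k ∈ range p, gb (-1/4) k^2 * 4^k - (-1)^(j+1) * (6*(y:ℚ) - p/(2*(y:ℚ)))) ∧
    Dv p 2 (∑ k ∈ range p, gb (-1/4) k * (2^k * (((2*k).choose k : ℕ) : ℚ)) - (-1)^(j+1) * (6*(y:ℚ) - p/(2*(y:ℚ)))) ∧
    Dv p 2 (∑ k ∈ range p, gb (-1/4) k^2 * (1/4)^k - (3*(y:ℚ) - p/(4*(y:ℚ)))) := by
  have hh : p = 2*(3*i)+1 := by omega
  have i4 := quarter_int (p := p) p3
  have i16 := sixteenth_int (p := p) p3
  have th := half_int' (p := p) p3
  have three0 : Dv p 0 (3:ℚ) := by have := Dv.nat (p := p) 3; push_cast at this; exact this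
  have two0 : Dv p 0 (2:ℚ) := by have := Dv.nat (p := p) 2; push_cast at this; exact this
  set M := 3*j+2 with hMd
  have hM : M < p := by omega
  have hc : 4*(M:ℚ)+1 = 3*p := by
    have : p = 4*j+3 := by omega
    rw [this, hMd]; push_cast; ring
  have e2M : 2*M = 3*i+p := by omega
  have v1 := val1 M
  have v3 := val3 M
  rw [e2M] at v1 v3
  have c32 : Dv p 0 (3/2:ℚ) := Dv_eq (by norm_num) (three0.mul0 th)
  have c34 : Dv p 0 (3/4:ℚ) := Dv_eq (by norm_num) (three0.mul0 i4)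
  have q1 := sq_cong (p := p) M hM hc c32 th (s := 1) Dv.one
  have q3 := sq_cong (p := p) M hM hc c32 th (s := 1/16) i16
  rw [← v1] at q1
  rw [← v3] at q3
  have l1 := val_zz_odd p3 hi i1 hodd hj
  have n3 := val_z1_odd p3 hi i1 hodd hj _ _ _ _ _ rfl rfl rfl rfl rfl
  have z6 := (z6_odd p3 hi i1 hodd hj h hx hy).1
  have d := (d57 p3 hi i1 hodd hj h hx hy).1
  have nS := (main_z1 p3 hi i1 hodd hj _ _ _ _ _ rfl rfl rfl rfl rfl).1
  have y0 : y ≠ 0 := by rintro rfl; norm_num at hy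
  have yq : (y:ℚ) ≠ 0 := by exact_mod_cast y0
  have r3 : Dv p 2 (∑ k ∈ range p, gb (-1/4) k^2 * (1/4)^k - (3*(y:ℚ) - p/(4*(y:ℚ)))) := by
    have e : (4*(1/16):ℚ) = 1/4 := by norm_num
    rw [e] at q3
    refine Dv_eq ?_ ((q3.add n3.1).add ((d.sub nS.1).mul0 c32))
    field_simp
    ring
  have r1 : Dv p 2 (∑ k ∈ range p, gb (-1/4) k^2 * 4^k - (-1)^(j+1) * (6*(y:ℚ) - p/(2*(y:ℚ)))) := by
    have e : (4*1:ℚ) = 4 := by norm_num
    rw [e] at q1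
    refine Dv_eq ?_ ((q1.add l1).sub (z6.mul0 c32))
    rw [pow_succ]
    field_simp
    ring
  refine ⟨r1, ?_, r3⟩
  have hls := leg2_sign (p := p) p3 (j := j) (by omega)
  obtain ⟨q, hq, h2h⟩ := two_N1 (p := p) p3 hh (l := (-1)^(j+1)) hls.symm
  have hκ : N1 p ((4:ℚ)^M) (2*(-1)^(j+1)) (2*(-1)^(j+1)*(3/2)*q) := by
    refine (h2h.mul hq).congr ?_ (by ring) (by ring)
    have : (4:ℚ)^M = 2^(2*M) := by rw [pow_mul]; norm_num
    rw [this, e2M, pow_add]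
  have s0 : Dv p 0 ((-1:ℚ)^(j+1)) := by
    have := Dv.int (p := p) ((-1)^(j+1))
    push_cast at this; exact this
  have R := rel (p := p) M hM hc c34 hq hκ i4
  refine Dv_eq ?_ ((R.add (r3.mul0 ((s0.mul0 two0).mul0 two0))).sub r1)
  field_simp
  ring

/-- `p ≡ 7 (mod 12)` -/
theorem all_odd (p3 : 3 < p) {i : ℕ} (hi : p = 6*i+1) (i1 : 1 ≤ i) (hodd : i % 2 = 1) {j : ℕ} (hj : 3*i = 2*j+1)
    {x y : ℤ} (h : x^2 + 3*y^2 = p) (hy : y % 2 = 1) :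
    Dv p 2 (∑ k ∈ range p, gb (-1/4) k^2 * 4^k - (-1)^(j+1) * (eps y * (6*(y:ℚ) - p/(2*(y:ℚ))))) ∧
    Dv p 2 (∑ k ∈ range p, gb (-1/4) k * (2^k * (((2*k).choose k : ℕ) : ℚ)) - (-1)^(j+1) * (eps y * (6*(y:ℚ) - p/(2*(y:ℚ))))) ∧
    Dv p 2 (∑ k ∈ range p, gb (-1/4) k^2 * (1/4)^k - eps y * (3*(y:ℚ) - p/(4*(y:ℚ)))) := by
  have hX : ∃ x' : ℤ, x'^2 + 3*y^2 = p ∧ x' % 3 = 1 := by
    have hX : x % 3 = 1 ∨ x % 3 = 2 := by
      have h0 : x % 3 ≠ 0 := by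
        intro h0
        obtain ⟨c, hc⟩ : (3:ℤ) ∣ x := Int.dvd_of_emod_eq_zero h0
        have : (3:ℤ) ∣ p := ⟨3*c^2 + y^2, by rw [← h, hc]; ring⟩
        have h4 : (3:ℕ) ∣ p := by exact_mod_cast this
        omega
      omega
    rcases hX with hX | hX
    · exact ⟨x, h, hX⟩
    · exact ⟨-x, by rw [← h]; ring, by omega⟩
  obtain ⟨x', hx', hx3⟩ := hX
  have y0 : y ≠ 0 := by rintro rfl; norm_num at hy
  have yq : (y:ℚ) ≠ 0 := by exact_mod_cast y0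
  rcases (show y % 4 = 1 ∨ (-y) % 4 = 1 by omega) with h4 | h4
  · have e : eps y = 1 := by unfold eps; rw [if_pos h4]
    rw [e, one_mul, one_mul]
    exact all_odd1 p3 hi i1 hodd hj hx' hx3 h4
  · have e : eps y = -1 := by unfold eps; rw [if_neg (by omega)]
    have hx'' : x'^2 + 3*(-y)^2 = p := by rw [← hx']; ring
    obtain ⟨a, b, c⟩ := all_odd1 p3 hi i1 hodd hj hx'' hx3 h4
    push_cast at a b c
    rw [e]
    refine ⟨Dv_eq ?_ a, Dv_eq ?_ b, Dv_eq ?_ c⟩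
    · field_simp
      ring
    · field_simp
      ring
    · field_simp
      ring

end

end

end Pool.Agent.N926.Qf
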